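import Pool.Agent.helper59.WA.ChebAP

/-!
# MP_5710e5_nt (helper18): primes of an arithmetic progression in `(P, 2P]`
-/

set_option autoImplicit false

open Finset ArithmeticFunction

namespace Pool.Agent.helper18.CR

open BVM Pool.Agent.helper59.WA

theorem theta_upper {q a : ℕ} (hq : q ≠ 0) (ha : a.Coprime q) :
    ∃ K X : ℝ, ∀ t : ℕ, X ≤ t → thetaAP q a t ≤ t / q.totient + K * t / Real.log t := by
  classical
  have : NeZero q := ⟨hq⟩
  have h1 : ∀ χ : DirichletCharacter ℂ q, ∃ C x₀ : ℝ, χ ≠ 1 → (3 ≤ x₀ ∧ ∀ x : ℝ, x₀ ≤ x →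
      ∀ y : ℕ, (y : ℝ) ≤ x → ‖psiChi χ y‖ ≤ C * x / Real.log x ^ 1) := by
    intro χ
    by_cases hχ : χ = 1
    · exact ⟨0, 0, fun h => absurd hχ h⟩
    · obtain ⟨C, x₀, h⟩ := SWfix 1 χ hχ
      exact ⟨C, x₀, fun _ => h⟩
  choose C X hCX using h1
  obtain ⟨C0, hC0⟩ := pnt_err 1
  refine ⟨∑ χ ∈ nonPrin q, C χ + C0, 3 + ∑ χ ∈ nonPrin q, |X χ|, fun t ht => ?_⟩
  have hs0 : 0 ≤ ∑ χ ∈ nonPrin q, |X χ| := Finset.sum_nonneg (fun _ _ => abs_nonneg _)
  have ht3 : (3 : ℝ) ≤ t := by linarith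
  have hE : |EE q a t| ≤ (∑ χ ∈ nonPrin q, C χ) * t / Real.log t := by
    refine (abs_EE_le hq ha t).trans ?_
    rw [Finset.sum_mul, Finset.sum_div]
    refine Finset.sum_le_sum (fun χ hχ => ?_)
    have h2 := (hCX χ ((mem_nonPrin hq χ).1 hχ)).2 t (by
      have h3 : X χ ≤ |X χ| := le_abs_self _
      have h4 : |X χ| ≤ ∑ χ ∈ nonPrin q, |X χ| :=
        Finset.single_le_sum (f := fun χ => |X χ|) (fun _ _ => abs_nonneg _) hχ
      linarith) t le_rfl
    rw [pow_one] at h2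
    exact h2
  have h2 := (psiAP_sub_thetaAP (q := q) (a := a) (le_refl t)).1
  have h3 := EE_eq q a t
  have h5 := hC0 t ht3 t le_rfl
  rw [pow_one] at h5
  have hφ : (1 : ℝ) ≤ q.totient := by
    exact_mod_cast Nat.totient_pos.2 (Nat.pos_of_ne_zero hq)
  have h6 : psiCop q t ≤ (t : ℝ) + C0 * t / Real.log t := by
    have h8 := (abs_le.1 h5).2
    have h9 : psiCop q t ≤ Chebyshev.psi t := by
      unfold psiCop Chebyshev.psi
      rw [Nat.floor_natCast]
      refine Finset.sum_le_sum_of_subset_of_nonneg ?_ (fun _ _ _ => vonMangoldt_nonneg)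
      intro n hn
      have := (Finset.mem_filter.1 hn).1
      simp only [Finset.mem_Icc, Finset.mem_Ioc] at this ⊢
      omega
    linarith
  have hA : 0 ≤ C0 * t / Real.log t := (abs_nonneg _).trans h5
  have h9 : psiCop q t / q.totient ≤ (t : ℝ) / q.totient + C0 * t / Real.log t := by
    have h10 : psiCop q t / q.totient ≤ ((t : ℝ) + C0 * t / Real.log t) / q.totient := by gcongr
    have h11 : C0 * t / Real.log t / q.totient ≤ C0 * t / Real.log t := div_le_self hA hφ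
    rw [add_div] at h10
    linarith
  have h10 := (abs_le.1 hE).2
  have h11 : (∑ χ ∈ nonPrin q, C χ + C0) * t / Real.log t =
      (∑ χ ∈ nonPrin q, C χ) * t / Real.log t + C0 * t / Real.log t := by ring
  rw [h11]
  linarith

theorem theta_upper' {q a : ℕ} (hq : q ≠ 0) (ha : a.Coprime q) {ε : ℝ} (hε : 0 < ε) :
    ∃ N₀ : ℕ, ∀ t : ℕ, N₀ ≤ t → thetaAP q a t ≤ t / q.totient + ε * t := by
  obtain ⟨K, X, h⟩ := theta_upper hq ha
  have ht1 : Filter.Tendsto (fun t : ℕ => K / Real.log t) Filter.atTop (nhds 0) :=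
    (tendsto_const_nhds.div_atTop Real.tendsto_log_atTop).comp tendsto_natCast_atTop_atTop
  obtain ⟨N₁, hN₁⟩ := Filter.eventually_atTop.1 (ht1.eventually_le_const hε)
  refine ⟨max N₁ ⌈X⌉₊, fun t ht => ?_⟩
  have h1 := h t ((Nat.le_ceil X).trans (by exact_mod_cast (le_max_right _ _).trans ht))
  have h2 := hN₁ t ((le_max_left _ _).trans ht)
  have h3 : K * t / Real.log t = K / Real.log t * t := by ring
  rw [h3] at h1
  have h4 : K / Real.log t * t ≤ ε * t := mul_le_mul_of_nonneg_right h2 (Nat.cast_nonneg _)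
  linarith

theorem theta_lower' {q a : ℕ} (hq : q ≠ 0) (ha : a.Coprime q) {ε : ℝ} (hε : 0 < ε) :
    ∃ N₀ : ℕ, ∀ t : ℕ, N₀ ≤ t → t / q.totient - ε * t ≤ thetaAP q a t := by
  obtain ⟨K, X, hX⟩ := theta_lower hq ha
  have ht1 : Filter.Tendsto (fun t : ℕ => K / Real.log t) Filter.atTop (nhds 0) :=
    (tendsto_const_nhds.div_atTop Real.tendsto_log_atTop).comp tendsto_natCast_atTop_atTop
  have ht2 : Filter.Tendsto (fun t : ℕ => 2 * Real.log q * (Real.log t / t)) Filter.atTop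
      (nhds (2 * Real.log q * 0)) :=
    ((Real.isLittleO_log_id_atTop.tendsto_div_nhds_zero).comp
      tendsto_natCast_atTop_atTop).const_mul _
  have ht3 : Filter.Tendsto (fun t : ℕ => 2 * (Real.log t / (t : ℝ) ^ (1 / 2 : ℝ))) Filter.atTop
      (nhds (2 * 0)) :=
    (((isLittleO_log_rpow_atTop (by norm_num : (0 : ℝ) < 1 / 2)).tendsto_div_nhds_zero).comp
      tendsto_natCast_atTop_atTop).const_mul _
  have ht := (ht1.add ht2).add ht3
  rw [mul_zero, mul_zero, add_zero, add_zero] at ht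
  obtain ⟨N₁, hN₁⟩ := Filter.eventually_atTop.1 (ht.eventually_le_const hε)
  refine ⟨max N₁ (max 3 ⌈X⌉₊), fun n hn => ?_⟩
  have hn1 : N₁ ≤ n := (le_max_left _ _).trans hn
  have hn3 : 3 ≤ n := (le_max_left _ _).trans ((le_max_right _ _).trans hn)
  have hnX : X ≤ n := by
    have h1 : ⌈X⌉₊ ≤ n := (le_max_right _ _).trans ((le_max_right _ _).trans hn)
    exact (Nat.le_ceil X).trans (by exact_mod_cast h1)
  have hn3' : (3 : ℝ) ≤ n := by exact_mod_cast hn3
  have hn0 : (0 : ℝ) < n := by linarith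
  have h1 := hX n hnX
  have h2 := hN₁ n hn1
  have h4 : (n : ℝ) * (K / Real.log n + 2 * Real.log q * (Real.log n / n) +
      2 * (Real.log n / (n : ℝ) ^ (1 / 2 : ℝ))) ≤ n * ε := by gcongr
  have h5 : (n : ℝ) * (K / Real.log n + 2 * Real.log q * (Real.log n / n) +
      2 * (Real.log n / (n : ℝ) ^ (1 / 2 : ℝ))) =
      K * n / Real.log n + 2 * Real.log q * Real.log n + 2 * √(n : ℝ) * Real.log n := by
    rw [← Real.sqrt_eq_rpow]
    have h6 : √(n : ℝ) ≠ 0 := (Real.sqrt_pos.2 hn0).ne'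
    have h7 : (n : ℝ) = √(n : ℝ) * √(n : ℝ) := (Real.mul_self_sqrt hn0.le).symm
    have h8 : (n : ℝ) * (Real.log n / √(n : ℝ)) = √(n : ℝ) * Real.log n := by
      nth_rewrite 1 [h7]
      field_simp
    have h9 : (n : ℝ) * (Real.log n / n) = Real.log n := by field_simp
    calc (n : ℝ) * (K / Real.log n + 2 * Real.log q * (Real.log n / n) +
          2 * (Real.log n / √(n : ℝ))) = K * n / Real.log n +
          2 * Real.log q * (n * (Real.log n / n)) + 2 * (n * (Real.log n / √(n : ℝ))) := by ring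
      _ = _ := by rw [h8, h9]; ring
  rw [h5] at h4
  linarith

/-- the number of primes `≡ a mod q` in `(P, 2P]` is at least `P / (2 φ(q) log P)` -/
theorem ap_dyadic {q a : ℕ} (hq : q ≠ 0) (ha : a.Coprime q) :
    ∃ P₀ : ℕ, ∀ P : ℕ, P₀ ≤ P → (P : ℝ) / (2 * q.totient * Real.log P) ≤
      (((Ioc P (2 * P)).filter (fun p => p.Prime ∧ p ≡ a [MOD q])).card : ℝ) := by
  classical
  have hφ : (0 : ℝ) < q.totient := by
    exact_mod_cast Nat.totient_pos.2 (Nat.pos_of_ne_zero hq)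
  obtain ⟨N₁, h1⟩ := theta_upper' hq ha (ε := 1 / (12 * q.totient)) (by positivity)
  obtain ⟨N₂, h2⟩ := theta_lower' hq ha (ε := 1 / (12 * q.totient)) (by positivity)
  refine ⟨max (max N₁ N₂) 4, fun P hP => ?_⟩
  have hP1 : N₁ ≤ P := (le_max_left _ _).trans ((le_max_left _ _).trans hP)
  have hP2 : N₂ ≤ P := (le_max_right _ _).trans ((le_max_left _ _).trans hP)
  have hP4 : 4 ≤ P := (le_max_right _ _).trans hP
  have hP4' : (4 : ℝ) ≤ P := by exact_mod_cast hP4
  have k1 := h1 P hP1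
  have k2 := h2 (2 * P) (by omega)
  push_cast at k2
  set S := (Ioc P (2 * P)).filter (fun p => p.Prime ∧ p ≡ a [MOD q]) with hS
  have hsplit : thetaAP q a (2 * P) = thetaAP q a P + ∑ p ∈ S, Real.log p := by
    unfold thetaAP
    rw [← Finset.sum_union]
    · refine Finset.sum_congr ?_ (fun _ _ => rfl)
      ext p
      simp only [hS, Finset.mem_union, Finset.mem_filter, Finset.mem_Icc, Finset.mem_Ioc]
      constructor
      · rintro ⟨⟨h3, h4⟩, h5⟩
        by_cases h6 : p ≤ P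
        · exact Or.inl ⟨⟨h3, h6⟩, h5⟩
        · exact Or.inr ⟨⟨by omega, h4⟩, h5⟩
      · rintro (⟨⟨h3, h4⟩, h5⟩ | ⟨⟨h3, h4⟩, h5⟩)
        · exact ⟨⟨h3, by omega⟩, h5⟩
        · exact ⟨⟨by omega, h4⟩, h5⟩
    · rw [Finset.disjoint_left]
      intro p hp hp'
      rw [hS, Finset.mem_filter, Finset.mem_Ioc] at hp'
      rw [Finset.mem_filter, Finset.mem_Icc] at hp
      omega
  have hlog2 : Real.log 2 ≤ Real.log P / 2 := by
    have h3 : Real.log 4 ≤ Real.log P := Real.log_le_log (by norm_num) hP4'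
    have h4 : Real.log 4 = 2 * Real.log 2 := by
      rw [show (4 : ℝ) = 2 ^ 2 by norm_num, Real.log_pow]
      push_cast
      ring
    linarith
  have hlog : 0 < Real.log P := Real.log_pos (by linarith)
  have hup : ∑ p ∈ S, Real.log p ≤ (S.card : ℝ) * (3 / 2 * Real.log P) := by
    rw [← nsmul_eq_mul]
    refine Finset.sum_le_card_nsmul _ (fun p : ℕ => Real.log p) _ (fun p hp => ?_)
    rw [hS, Finset.mem_filter, Finset.mem_Ioc] at hp
    have h3 : Real.log p ≤ Real.log (2 * P) :=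
      Real.log_le_log (by exact_mod_cast hp.2.1.pos) (by exact_mod_cast hp.1.2)
    rw [Real.log_mul (by norm_num) (by positivity)] at h3
    linarith
  have h3 : (3 : ℝ) / 4 * (P / q.totient) ≤ (S.card : ℝ) * (3 / 2 * Real.log P) := by
    have h4 : 2 * (P : ℝ) / q.totient - 1 / (12 * q.totient) * (2 * P) -
        (P / q.totient + 1 / (12 * q.totient) * P) = 3 / 4 * (P / q.totient) := by
      field_simp
      ring
    linarith
  rw [div_le_iff₀ (by positivity)]
  have h5 : (P : ℝ) / q.totient * q.totient = P := by field_simp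
  calc (P : ℝ) = (4 / 3 * q.totient) * (3 / 4 * (P / q.totient)) := by
        linear_combination -h5
    _ ≤ (4 / 3 * q.totient) * ((S.card : ℝ) * (3 / 2 * Real.log P)) := by gcongr
    _ = (S.card : ℝ) * (2 * q.totient * Real.log P) := by ring

end Pool.Agent.helper18.CR
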