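import Pool.Agent.helper20.MPN.S
import Pool.Agent.helper20.MPN.R
import Pool.Agent.helper91.Mertens

/-!
# MP_5710e5_nt (helper18): upper bound sieve with at most two removed classes
-/

set_option autoImplicit false

open Finset

namespace Pool.Agent.helper18.CR

open Pool.Agent.helper20.MPN

/-- the completely multiplicative function `1 / n` -/
noncomputable def invHom : ℕ →* ℝ where
  toFun n := ((n : ℝ))⁻¹
  map_one' := by simp
  map_mul' a b := by push_cast; rw [mul_inv]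

theorem log_le_prod (w : ℕ) :
    Real.log (w + 1) ≤ ∏ p ∈ Nat.primesLE w, (1 - (p : ℝ)⁻¹)⁻¹ := by
  have h1 := (EulerProduct.summable_and_hasSum_factoredNumbers_prod_filter_prime_geometric
    (f := invHom) (fun {p} hp => by
      have : (1 : ℝ) < p := by exact_mod_cast hp.one_lt
      change ‖((p : ℝ))⁻¹‖ < 1
      rw [norm_inv, Real.norm_natCast]
      exact inv_lt_one_of_one_lt₀ this) (range (w + 1))).2
  have hmem : ∀ i ∈ Icc 1 w, i ∈ Nat.factoredNumbers (range (w + 1)) := by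
    intro i hi
    rw [Finset.mem_Icc] at hi
    rw [Nat.mem_factoredNumbers]
    refine ⟨by omega, fun p hp => ?_⟩
    have := Nat.le_of_mem_primeFactorsList hp
    rw [Finset.mem_range]
    omega
  have h2 := sum_le_hasSum ((Icc 1 w).subtype (· ∈ Nat.factoredNumbers (range (w + 1))))
    (fun i _ => by
      change 0 ≤ (((i : ℕ) : ℝ))⁻¹
      positivity) h1
  have h3 : ∑ i ∈ (Icc 1 w).subtype (· ∈ Nat.factoredNumbers (range (w + 1))), invHom i =
      ∑ i ∈ Icc 1 w, ((i : ℝ))⁻¹ :=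
    Finset.sum_subtype_of_mem (fun i : ℕ => ((i : ℝ))⁻¹) hmem
  rw [h3] at h2
  have h4 := log_add_one_le_harmonic w
  rw [harmonic_eq_sum_Icc] at h4
  push_cast at h4
  exact h4.trans h2

/-- the sieve inequality, with the level `w ^ 37` -/
theorem sieve2 {w : ℕ} (hw : 2 ≤ w) (R : ℕ → Finset ℕ) (Q : Finset ℕ)
    (hQ : ∀ p ∈ Q, SAdm R p ∧ p ≤ w ∧ (R p).card ≤ 2) (N : ℕ) (A : Finset ℕ)
    (hA : A ⊆ range N) (hAs : ∀ n ∈ A, ∀ p ∈ Q, n % p ∉ R p) :
    ((A.card : ℝ) - (w : ℝ) ^ 148) *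
      (1 / 2 * ∏ p ∈ Q, (1 + ((R p).card : ℝ) / ((p : ℝ) - (R p).card))) ≤ N := by
  set h : ℕ → ℝ := fun p => ((R p).card : ℝ) / ((p : ℝ) - (R p).card) with hh
  have hpos : ∀ p ∈ Q, 0 ≤ h p := fun p hp =>
    div_nonneg (Nat.cast_nonneg _) (hQ p hp).1.sub_pos.le
  have hle : ∀ p ∈ Q, h p ≤ 6 / p := by
    intro p hp
    have h1 := (hQ p hp).1
    have h2 := (hQ p hp).2.2
    have h3 := h1.lt
    have hp0 : (0 : ℝ) < p := by exact_mod_cast h1.prime.pos
    have h4 : 1 ≤ (R p).card := Finset.card_pos.2 h1.ne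
    rw [hh]
    simp only
    rw [div_le_div_iff₀ h1.sub_pos hp0]
    obtain hc | hc : (R p).card = 1 ∨ (R p).card = 2 := by omega
    · rw [hc] at h3 ⊢
      have : (2 : ℝ) ≤ p := by exact_mod_cast h3
      push_cast
      linarith
    · rw [hc] at h3 ⊢
      have : (3 : ℝ) ≤ p := by exact_mod_cast h3
      push_cast
      linarith
  have hlogw : 0 < Real.log w := Real.log_pos (by exact_mod_cast hw)
  have hs : ∑ p ∈ Q, h p * Real.log p ≤ 18 * Real.log w := by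
    have h1 : ∑ p ∈ Q, h p * Real.log p ≤ ∑ p ∈ Nat.primesLE w, 6 * (Real.log p / p) := by
      calc ∑ p ∈ Q, h p * Real.log p ≤ ∑ p ∈ Q, 6 * (Real.log p / p) := by
            refine Finset.sum_le_sum fun p hp => ?_
            have h3 : 0 ≤ Real.log p := Real.log_natCast_nonneg p
            calc h p * Real.log p ≤ 6 / p * Real.log p := mul_le_mul_of_nonneg_right (hle p hp) h3
              _ = _ := by ring
        _ ≤ _ := by
            refine Finset.sum_le_sum_of_subset_of_nonneg (fun p hp => ?_) (fun p _ _ => ?_)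
            · exact Nat.mem_primesLE.2 ⟨(hQ p hp).2.1, (hQ p hp).1.prime⟩
            · have := Real.log_natCast_nonneg p
              positivity
    have h2 := Pool.Agent.helper91.Mertens.upper (N := w) (by omega)
    unfold Pool.Agent.helper91.Mertens.M at h2
    rw [← Finset.mul_sum] at h1
    have h3 : Real.log 4 ≤ 2 * Real.log w := by
      rw [show (4 : ℝ) = 2 ^ 2 by norm_num, Real.log_pow]
      have : Real.log 2 ≤ Real.log w := Real.log_le_log (by norm_num) (by exact_mod_cast hw)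
      push_cast
      linarith
    linarith
  have hr := rankin Q (fun p hp => (hQ p hp).1.prime) h hpos w hw (fun p hp => (hQ p hp).2.1) 18
    hs 37 (by norm_num)
  set G : ℝ := ∑ S ∈ Q.powerset.filter (fun S => ∏ p ∈ S, p ≤ w ^ 37), ∏ p ∈ S, h p with hG
  have hS := Ssieve (R := R) (Q.powerset.filter (fun S => ∏ p ∈ S, p ≤ w ^ 37))
    (fun S hS p hp => (hQ p (Finset.mem_powerset.1 (Finset.mem_filter.1 hS).1 hp)).1)
    (Q := w ^ 37) (fun S hS => (Finset.mem_filter.1 hS).2) N A hA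
    (fun n hn S hS p hp => hAs n hn p (Finset.mem_powerset.1 (Finset.mem_filter.1 hS).1 hp))
  have e1 : ∑ S ∈ Q.powerset.filter (fun S => ∏ p ∈ S, p ≤ w ^ 37), ShS R S = G := rfl
  rw [e1] at hS
  have e2 : ((w ^ 37 : ℕ) : ℝ) ^ 4 = (w : ℝ) ^ 148 := by
    push_cast
    rw [← pow_mul]
  rw [e2] at hS
  have hprod : 0 ≤ 1 / 2 * ∏ p ∈ Q, (1 + h p) :=
    mul_nonneg (by norm_num) (Finset.prod_nonneg fun p hp => by linarith [hpos p hp])
  rcases le_or_gt ((w : ℝ) ^ 148) (A.card : ℝ) with hc | hc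
  · calc ((A.card : ℝ) - (w : ℝ) ^ 148) * (1 / 2 * ∏ p ∈ Q, (1 + h p))
        ≤ ((A.card : ℝ) - (w : ℝ) ^ 148) * G := mul_le_mul_of_nonneg_left hr (by linarith)
      _ ≤ N := by linarith
  · have : ((A.card : ℝ) - (w : ℝ) ^ 148) * (1 / 2 * ∏ p ∈ Q, (1 + h p)) ≤ 0 :=
      mul_nonpos_of_nonpos_of_nonneg (by linarith) hprod
    have h0 : (0 : ℝ) ≤ N := Nat.cast_nonneg _
    linarith

theorem prod_dvd_ge {k : ℕ} (hk : k ≠ 0) (w : ℕ) :
    (k.totient : ℝ) / k ≤ ∏ p ∈ (Nat.primesLE w).filter (fun p => p ∣ k), (1 - (p : ℝ)⁻¹) := by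
  have h1 : (k.totient : ℝ) = k * ∏ p ∈ k.primeFactors, (1 - (p : ℝ)⁻¹) := by
    have := Nat.totient_eq_mul_prod_factors k
    have h2 : ((k.totient : ℚ) : ℝ) = ((k * ∏ p ∈ k.primeFactors, (1 - (p : ℚ)⁻¹) : ℚ) : ℝ) := by
      rw [this]
    push_cast at h2
    exact h2
  have hk0 : (k : ℝ) ≠ 0 := by exact_mod_cast hk
  rw [h1, mul_div_assoc, mul_comm, div_mul_cancel₀ _ hk0]
  have hsub : (Nat.primesLE w).filter (fun p => p ∣ k) ⊆ k.primeFactors := by
    intro p hp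
    rw [Finset.mem_filter, Nat.mem_primesLE] at hp
    exact Nat.mem_primeFactors.2 ⟨hp.1.2, hp.2, hk⟩
  have hfac : ∀ p ∈ k.primeFactors, 0 ≤ 1 - (p : ℝ)⁻¹ ∧ 1 - (p : ℝ)⁻¹ ≤ 1 := by
    intro p hp
    have : (1 : ℝ) ≤ p := by exact_mod_cast (Nat.prime_of_mem_primeFactors hp).one_le
    have h3 : (p : ℝ)⁻¹ ≤ 1 := inv_le_one_of_one_le₀ this
    have h4 : 0 ≤ (p : ℝ)⁻¹ := by positivity
    constructor <;> linarith
  rw [← Finset.prod_sdiff hsub]
  have h5 : ∏ p ∈ k.primeFactors \ (Nat.primesLE w).filter (fun p => p ∣ k), (1 - (p : ℝ)⁻¹) ≤ 1 :=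
    Finset.prod_le_one (fun p hp => (hfac p (Finset.mem_sdiff.1 hp).1).1)
      (fun p hp => (hfac p (Finset.mem_sdiff.1 hp).1).2)
  have h6 : 0 ≤ ∏ p ∈ (Nat.primesLE w).filter (fun p => p ∣ k), (1 - (p : ℝ)⁻¹) :=
    Finset.prod_nonneg fun p hp => (hfac p (hsub hp)).1
  calc _ ≤ 1 * ∏ p ∈ (Nat.primesLE w).filter (fun p => p ∣ k), (1 - (p : ℝ)⁻¹) :=
        mul_le_mul_of_nonneg_right h5 h6
    _ = _ := one_mul _

end Pool.Agent.helper18.CR
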