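import Pool.Agent.helper18.CR.B

/-!
# MP_5710e5_nt (helper18): a Brun-Titchmarsh inequality in arithmetic progressions and an upper
bound for the number of primes `r ≤ y` with `2 m r + 1` prime
-/

set_option autoImplicit false

open Finset

namespace Pool.Agent.helper18.CR

open Pool.Agent.helper20.MPN

/-- the residue class `t mod p` with `b + k t ≡ 0` -/
noncomputable def cls (k b p : ℕ) : ℕ := ((-(b : ZMod p)) * (k : ZMod p)⁻¹).val

theorem cls_lt {k b p : ℕ} (hp : p.Prime) : cls k b p < p := by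
  have : NeZero p := ⟨hp.ne_zero⟩
  exact ZMod.val_lt _

theorem cls_spec {k b p t : ℕ} (hp : p.Prime) (hk : ¬ p ∣ k) (h : t % p = cls k b p) :
    p ∣ b + k * t := by
  have : Fact p.Prime := ⟨hp⟩
  have h1 : (t : ZMod p) = -(b : ZMod p) * (k : ZMod p)⁻¹ := by
    rw [← ZMod.natCast_mod t p, h, cls, ZMod.natCast_zmod_val]
  have h2 : (k : ZMod p) ≠ 0 := by
    rw [Ne, ZMod.natCast_eq_zero_iff]
    exact hk
  rw [← ZMod.natCast_eq_zero_iff]
  push_cast
  rw [h1]
  field_simp
  ring

theorem bound_of {a W T N g : ℝ} (h : (a - W) * (1 / 2 * T) ≤ N) (hg : 0 < g) (hgP : g ≤ T)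
    (hN : 0 ≤ N) : a ≤ W + 2 * N / g := by
  rcases le_or_gt a W with hc | hc
  · have : 0 ≤ 2 * N / g := by positivity
    linarith
  · have h1 : (a - W) * (1 / 2 * g) ≤ N :=
      (mul_le_mul_of_nonneg_left (by linarith) (by linarith)).trans h
    have h2 : a - W ≤ 2 * N / g := by
      rw [le_div_iff₀ hg]
      linarith
    linarith

theorem bt_card {w : ℕ} (hw : 2 ≤ w) {x k : ℕ} (hk : 1 ≤ k) (hkx : k ≤ x) (b : ℕ) :
    (((Icc 1 x).filter (fun q => q.Prime ∧ q ≡ b [MOD k])).card : ℝ) ≤
      w + (w : ℝ) ^ 148 + 4 * x / (k.totient * Real.log (w + 1)) := by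
  classical
  set S := (Icc 1 x).filter (fun q => q.Prime ∧ q ≡ b [MOD k]) with hS
  set A := (range (x / k + 1)).filter (fun t => (b % k + k * t).Prime ∧ w < b % k + k * t) with hA
  have hcard : S.card ≤ w + A.card := by
    have h1 : S ⊆ Icc 1 w ∪ A.image (fun t => b % k + k * t) := by
      intro q hq
      rw [hS, Finset.mem_filter, Finset.mem_Icc] at hq
      rw [Finset.mem_union]
      rcases Nat.lt_or_ge w q with h | h
      · right
        have h2 : b % k + k * (q / k) = q := by
          have h3 := Nat.mod_add_div q k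
          have h4 : q % k = b % k := hq.2.2
          rw [← h4]
          exact h3
        refine Finset.mem_image.2 ⟨q / k, ?_, h2⟩
        rw [hA, Finset.mem_filter, Finset.mem_range, h2]
        exact ⟨Nat.lt_succ_of_le (Nat.div_le_div_right hq.1.2), hq.2.1, h⟩
      · left
        exact Finset.mem_Icc.2 ⟨hq.1.1, h⟩
    calc S.card ≤ _ := Finset.card_le_card h1
      _ ≤ (Icc 1 w).card + (A.image (fun t => b % k + k * t)).card := Finset.card_union_le _ _
      _ ≤ w + A.card := by
          have := Finset.card_image_le (s := A) (f := fun t => b % k + k * t)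
          simp only [Nat.card_Icc]
          omega
  have hsieve := sieve2 hw (fun p => {cls k (b % k) p})
    ((Nat.primesLE w).filter (fun p => ¬ p ∣ k)) (fun p hp => by
      rw [Finset.mem_filter, Nat.mem_primesLE] at hp
      refine ⟨⟨hp.1.2, ?_, Finset.singleton_nonempty _, ?_⟩, hp.1.1, ?_⟩
      · intro y hy
        rw [Finset.mem_singleton.1 hy]
        exact Finset.mem_range.2 (cls_lt hp.1.2)
      · rw [Finset.card_singleton]
        exact hp.1.2.one_lt
      · rw [Finset.card_singleton]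
        norm_num) (x / k + 1) A (Finset.filter_subset _ _) (fun t ht p hp hmem => by
      rw [Finset.mem_filter, Nat.mem_primesLE] at hp
      have h1 := cls_spec hp.1.2 hp.2 (Finset.mem_singleton.1 hmem)
      rw [hA, Finset.mem_filter] at ht
      have h2 := (Nat.prime_dvd_prime_iff_eq hp.1.2 ht.2.1).1 h1
      have h3 := ht.2.2
      have h4 := hp.1.1
      omega)
  have hprod : ∏ p ∈ (Nat.primesLE w).filter (fun p => ¬ p ∣ k),
      (1 + ((({cls k (b % k) p} : Finset ℕ).card : ℕ) : ℝ) /
        ((p : ℝ) - (({cls k (b % k) p} : Finset ℕ).card : ℕ))) =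
      ∏ p ∈ (Nat.primesLE w).filter (fun p => ¬ p ∣ k), (1 - (p : ℝ)⁻¹)⁻¹ := by
    refine Finset.prod_congr rfl (fun p hp => ?_)
    rw [Finset.mem_filter, Nat.mem_primesLE] at hp
    have h1 : (2 : ℝ) ≤ p := by exact_mod_cast hp.1.2.two_le
    have h2 : (p : ℝ) - 1 ≠ 0 := by linarith
    have h3 : (p : ℝ) ≠ 0 := by linarith
    rw [Finset.card_singleton, Nat.cast_one]
    have h4 : 1 - (p : ℝ)⁻¹ = (p - 1) / p := by field_simp
    rw [h4, inv_div]
    field_simp
    ring
  rw [hprod] at hsieve
  have hφ : (0 : ℝ) < k.totient := by exact_mod_cast Nat.totient_pos.2 hk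
  have hk0 : (0 : ℝ) < k := by exact_mod_cast hk
  have hlog : 0 < Real.log ((w : ℝ) + 1) := Real.log_pos (by
    have : (2 : ℝ) ≤ w := by exact_mod_cast hw
    linarith)
  have hg : Real.log (w + 1) * ((k.totient : ℝ) / k) ≤
      ∏ p ∈ (Nat.primesLE w).filter (fun p => ¬ p ∣ k), (1 - (p : ℝ)⁻¹)⁻¹ := by
    have h1 := log_le_prod w
    have h2 := prod_dvd_ge (show k ≠ 0 by omega) w
    have h3 := Finset.prod_filter_mul_prod_filter_not (Nat.primesLE w) (fun p => p ∣ k)
      (fun p => (1 - (p : ℝ)⁻¹)⁻¹)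
    have hpos : ∀ p ∈ Nat.primesLE w, 0 < 1 - (p : ℝ)⁻¹ := by
      intro p hp
      have : (1 : ℝ) < p := by exact_mod_cast (Nat.mem_primesLE.1 hp).2.one_lt
      have h5 := inv_lt_one_of_one_lt₀ this
      linarith
    set X := ∏ p ∈ (Nat.primesLE w).filter (fun p => p ∣ k), (1 - (p : ℝ)⁻¹) with hX
    have hXpos : 0 < X := Finset.prod_pos fun p hp => hpos p (Finset.mem_filter.1 hp).1
    rw [Finset.prod_inv_distrib] at h3
    rw [← h3] at h1
    set Y := ∏ p ∈ (Nat.primesLE w).filter (fun p => ¬ p ∣ k), (1 - (p : ℝ)⁻¹)⁻¹ with hY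
    calc Real.log (w + 1) * ((k.totient : ℝ) / k) ≤ (X⁻¹ * Y) * X := by
          apply mul_le_mul h1 h2 (by positivity)
          exact hlog.le.trans h1
      _ = Y := by field_simp
  have h5 := bound_of hsieve (by positivity) hg (by positivity)
  have h6 : 2 * (((x / k + 1 : ℕ) : ℝ)) / (Real.log (w + 1) * ((k.totient : ℝ) / k)) ≤
      4 * x / (k.totient * Real.log (w + 1)) := by
    have h7 : ((x / k + 1 : ℕ) : ℝ) ≤ 2 * (x / k) := by
      push_cast
      have h8 : ((x / k : ℕ) : ℝ) ≤ (x : ℝ) / k := Nat.cast_div_le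
      have h9 : (1 : ℝ) ≤ (x : ℝ) / k := by
        rw [le_div_iff₀ hk0, one_mul]
        exact_mod_cast hkx
      linarith
    calc 2 * (((x / k + 1 : ℕ) : ℝ)) / (Real.log (w + 1) * ((k.totient : ℝ) / k))
        ≤ 2 * (2 * ((x : ℝ) / k)) / (Real.log (w + 1) * ((k.totient : ℝ) / k)) := by gcongr
      _ = _ := by field_simp; ring
  have h7 : (S.card : ℝ) ≤ w + A.card := by exact_mod_cast hcard
  linarith

theorem pairs_card {w : ℕ} (hw : 2 ≤ w) {m y : ℕ} (hm : 1 ≤ m) (hy : 1 ≤ y) :
    (((Icc 1 y).filter (fun r => r.Prime ∧ (2 * m * r + 1).Prime)).card : ℝ) ≤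
      w + (w : ℝ) ^ 148 + 8 * y * (m / m.totient) / Real.log (w + 1) ^ 2 := by
  classical
  set S := (Icc 1 y).filter (fun r => r.Prime ∧ (2 * m * r + 1).Prime) with hS
  set A := (range (y + 1)).filter (fun r => (r.Prime ∧ (2 * m * r + 1).Prime) ∧ w < r) with hA
  have hcard : S.card ≤ w + A.card := by
    have h1 : S ⊆ Icc 1 w ∪ A := by
      intro q hq
      rw [hS, Finset.mem_filter, Finset.mem_Icc] at hq
      rw [Finset.mem_union]
      rcases Nat.lt_or_ge w q with h | h
      · right
        rw [hA, Finset.mem_filter, Finset.mem_range]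
        exact ⟨by omega, hq.2, h⟩
      · left
        exact Finset.mem_Icc.2 ⟨hq.1.1, h⟩
    calc S.card ≤ _ := Finset.card_le_card h1
      _ ≤ (Icc 1 w).card + A.card := Finset.card_union_le _ _
      _ ≤ w + A.card := by
          simp only [Nat.card_Icc]
          omega
  have hne : ∀ p : ℕ, p.Prime → ¬ p ∣ 2 * m → cls (2 * m) 1 p ≠ 0 := by
    intro p hp hpm h0
    have h1 := cls_spec (t := 0) (b := 1) hp hpm (by rw [h0, Nat.zero_mod])
    rw [mul_zero, add_zero] at h1
    exact hp.one_lt.ne' (Nat.dvd_one.1 h1)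
  have hcard2 : ∀ p : ℕ, p.Prime → ¬ p ∣ 2 * m → ({0, cls (2 * m) 1 p} : Finset ℕ).card = 2 :=
    fun p hp hpm => Finset.card_pair (hne p hp hpm).symm
  have hp3 : ∀ p : ℕ, p.Prime → ¬ p ∣ 2 * m → 3 ≤ p := by
    intro p hp hpm
    rcases hp.two_le.lt_or_eq with h | h
    · exact h
    · exact absurd (h ▸ Dvd.intro m rfl) hpm
  have hsieve := sieve2 hw (fun p => if p ∣ 2 * m then {0} else {0, cls (2 * m) 1 p})
    (Nat.primesLE w) (fun p hp => by
      rw [Nat.mem_primesLE] at hp
      by_cases hpm : p ∣ 2 * m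
      · simp only [if_pos hpm]
        refine ⟨⟨hp.2, ?_, ?_, ?_⟩, hp.1, ?_⟩
        · simp only [if_pos hpm]
          intro z hz
          rw [Finset.mem_singleton.1 hz]
          exact Finset.mem_range.2 hp.2.pos
        · simp only [if_pos hpm]
          exact Finset.singleton_nonempty _
        · simp only [if_pos hpm]
          rw [Finset.card_singleton]
          exact hp.2.one_lt
        · rw [Finset.card_singleton]
          norm_num
      · simp only [if_neg hpm]
        refine ⟨⟨hp.2, ?_, ?_, ?_⟩, hp.1, ?_⟩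
        · simp only [if_neg hpm]
          intro z hz
          rcases Finset.mem_insert.1 hz with hz | hz
          · rw [hz]
            exact Finset.mem_range.2 hp.2.pos
          · rw [Finset.mem_singleton.1 hz]
            exact Finset.mem_range.2 (cls_lt hp.2)
        · simp only [if_neg hpm]
          exact ⟨0, Finset.mem_insert_self _ _⟩
        · simp only [if_neg hpm]
          rw [hcard2 p hp.2 hpm]
          exact hp3 p hp.2 hpm
        · rw [hcard2 p hp.2 hpm]) (y + 1) A (Finset.filter_subset _ _) (fun t ht p hp hmem => by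
      rw [Nat.mem_primesLE] at hp
      rw [hA, Finset.mem_filter] at ht
      have h0 : t % p ≠ 0 := by
        intro h
        have h2 := (Nat.prime_dvd_prime_iff_eq hp.2 ht.2.1.1).1 (Nat.dvd_of_mod_eq_zero h)
        have h3 := ht.2.2
        have h4 := hp.1
        omega
      by_cases hpm : p ∣ 2 * m
      · simp only [if_pos hpm] at hmem
        exact h0 (Finset.mem_singleton.1 hmem)
      · simp only [if_neg hpm] at hmem
        rcases Finset.mem_insert.1 hmem with h | h
        · exact h0 h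
        · have h1 := cls_spec hp.2 hpm (Finset.mem_singleton.1 h)
          rw [add_comm] at h1
          have h2 := (Nat.prime_dvd_prime_iff_eq hp.2 ht.2.1.2).1 h1
          have h3 := ht.2.2
          have h4 := hp.1
          have h5 : t ≤ 2 * m * t := Nat.le_mul_of_pos_left t (by omega)
          omega)
  have hφ : (0 : ℝ) < m.totient := by exact_mod_cast Nat.totient_pos.2 hm
  have hm0 : (0 : ℝ) < m := by exact_mod_cast hm
  have hlog : 0 < Real.log ((w : ℝ) + 1) := Real.log_pos (by
    have : (2 : ℝ) ≤ w := by exact_mod_cast hw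
    linarith)
  have hg : Real.log (w + 1) ^ 2 * ((m.totient : ℝ) / (2 * m)) ≤
      ∏ p ∈ Nat.primesLE w, (1 +
        (((if p ∣ 2 * m then {0} else {0, cls (2 * m) 1 p} : Finset ℕ).card : ℕ) : ℝ) /
        ((p : ℝ) - ((if p ∣ 2 * m then {0} else {0, cls (2 * m) 1 p} : Finset ℕ).card : ℕ))) := by
    have h1 := log_le_prod w
    have h2 := prod_dvd_ge (show 2 * m ≠ 0 by omega) w
    have h4 : (m.totient : ℝ) / (2 * m) ≤ (((2 * m).totient : ℕ) : ℝ) / ((2 * m : ℕ) : ℝ) := by
      have h5 : m.totient ≤ (2 * m).totient :=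
        Nat.le_of_dvd (Nat.totient_pos.2 (by omega)) (Nat.totient_dvd_of_dvd (Dvd.intro_left 2 rfl))
      push_cast
      have h6 : (m.totient : ℝ) ≤ ((2 * m).totient : ℝ) := by exact_mod_cast h5
      gcongr
    have hpos : ∀ p ∈ Nat.primesLE w, 0 < 1 - (p : ℝ)⁻¹ := by
      intro p hp
      have : (1 : ℝ) < p := by exact_mod_cast (Nat.mem_primesLE.1 hp).2.one_lt
      have h5 := inv_lt_one_of_one_lt₀ this
      linarith
    have h5 : (∏ p ∈ Nat.primesLE w, (1 - (p : ℝ)⁻¹)⁻¹) ^ 2 *
        ∏ p ∈ (Nat.primesLE w).filter (fun p => p ∣ 2 * m), (1 - (p : ℝ)⁻¹) =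
        ∏ p ∈ Nat.primesLE w, (((1 - (p : ℝ)⁻¹)⁻¹) ^ 2 *
          (if p ∣ 2 * m then (1 - (p : ℝ)⁻¹) else 1)) := by
      rw [Finset.prod_mul_distrib, Finset.prod_filter, Finset.prod_pow]
    calc Real.log (w + 1) ^ 2 * ((m.totient : ℝ) / (2 * m))
        ≤ (∏ p ∈ Nat.primesLE w, (1 - (p : ℝ)⁻¹)⁻¹) ^ 2 *
          ∏ p ∈ (Nat.primesLE w).filter (fun p => p ∣ 2 * m), (1 - (p : ℝ)⁻¹) := by
          apply mul_le_mul (pow_le_pow_left₀ hlog.le h1 2) (h4.trans h2) (by positivity)
          positivity
      _ = _ := h5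
      _ ≤ _ := by
          refine Finset.prod_le_prod (fun p hp => ?_) (fun p hp => ?_)
          · have h6 := hpos p hp
            split_ifs <;> positivity
          · have hpp := (Nat.mem_primesLE.1 hp).2
            have h6 := hpos p hp
            have h7 : (2 : ℝ) ≤ p := by exact_mod_cast hpp.two_le
            have h8 : 1 - (p : ℝ)⁻¹ = (p - 1) / p := by
              field_simp
            have h9 : (p : ℝ) - 1 ≠ 0 := by linarith
            have h10 : (p : ℝ) ≠ 0 := by linarith
            by_cases hpm : p ∣ 2 * m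
            · rw [if_pos hpm, if_pos hpm, Finset.card_singleton, Nat.cast_one, h8, inv_div]
              apply le_of_eq
              field_simp
              ring
            · rw [if_neg hpm, if_neg hpm, hcard2 p hpp hpm, h8, inv_div]
              have h11 : (3 : ℝ) ≤ p := by exact_mod_cast hp3 p hpp hpm
              have h12 : (p : ℝ) - 2 ≠ 0 := by linarith
              push_cast
              have h13 : 1 + 2 / ((p : ℝ) - 2) = p / (p - 2) := by
                field_simp
                ring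
              rw [h13, mul_one, div_pow, div_le_div_iff₀ (by nlinarith) (by linarith)]
              nlinarith
  have h5 := bound_of hsieve (by positivity) hg (by positivity)
  have h6 : 2 * (((y + 1 : ℕ) : ℝ)) / (Real.log (w + 1) ^ 2 * ((m.totient : ℝ) / (2 * m))) ≤
      8 * y * (m / m.totient) / Real.log (w + 1) ^ 2 := by
    have h7 : ((y + 1 : ℕ) : ℝ) ≤ 2 * y := by
      push_cast
      have h9 : (1 : ℝ) ≤ (y : ℝ) := by exact_mod_cast hy
      linarith
    calc 2 * (((y + 1 : ℕ) : ℝ)) / (Real.log (w + 1) ^ 2 * ((m.totient : ℝ) / (2 * m)))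
        ≤ 2 * (2 * (y : ℝ)) / (Real.log (w + 1) ^ 2 * ((m.totient : ℝ) / (2 * m))) := by gcongr
      _ = _ := by field_simp; ring
  have h7 : (S.card : ℝ) ≤ w + A.card := by exact_mod_cast hcard
  linarith

end Pool.Agent.helper18.CR
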