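import Pool.Agent.helper18.CR.D

/-!
# MP_5710e5_nt (helper18): primes `r ≤ y`, `r ≡ b mod k`, with `2 m r + 1` prime
-/

set_option autoImplicit false

open Finset

namespace Pool.Agent.helper18.CR

open Pool.Agent.helper20.MPN

theorem pairsAP_card {w : ℕ} (hw : 2 ≤ w) {m y k : ℕ} (b : ℕ) (hm : 1 ≤ m) (hk : 1 ≤ k)
    (hky : k ≤ y) :
    (((Icc 1 y).filter (fun r => (r.Prime ∧ (2 * m * r + 1).Prime) ∧ r ≡ b [MOD k])).card : ℝ) ≤
      w + (w : ℝ) ^ 148 + 8 * (y / k) * ((k / k.totient) ^ 2 * (m / m.totient)) /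
        Real.log (w + 1) ^ 2 := by
  classical
  set S := (Icc 1 y).filter (fun r => (r.Prime ∧ (2 * m * r + 1).Prime) ∧ r ≡ b [MOD k]) with hS
  set A := (range (y / k + 1)).filter (fun t => ((b % k + k * t).Prime ∧
    (2 * m * (b % k + k * t) + 1).Prime) ∧ w < b % k + k * t) with hA
  have hcard : S.card ≤ w + A.card := by
    have h1 : S ⊆ Icc 1 w ∪ A.image (fun t => b % k + k * t) := by
      intro q hq
      rw [hS, Finset.mem_filter, Finset.mem_Icc] at hq
      rw [Finset.mem_union]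
      rcases Nat.lt_or_ge w q with h | h
      · right
        have h2 : b % k + k * (q / k) = q := by
          have h3 := Nat.mod_add_div q k
          have h4 : q % k = b % k := hq.2.2
          rw [← h4]
          exact h3
        refine Finset.mem_image.2 ⟨q / k, ?_, h2⟩
        rw [hA, Finset.mem_filter, Finset.mem_range, h2]
        exact ⟨Nat.lt_succ_of_le (Nat.div_le_div_right hq.1.2), hq.2.1, h⟩
      · left
        exact Finset.mem_Icc.2 ⟨hq.1.1, h⟩
    calc S.card ≤ _ := Finset.card_le_card h1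
      _ ≤ (Icc 1 w).card + (A.image (fun t => b % k + k * t)).card := Finset.card_union_le _ _
      _ ≤ w + A.card := by
          have := Finset.card_image_le (s := A) (f := fun t => b % k + k * t)
          simp only [Nat.card_Icc]
          omega
  set u : ℕ → ℕ := fun p => cls k (b % k) p with hu
  set v : ℕ → ℕ := fun p => cls (2 * m * k) (2 * m * (b % k) + 1) p with hv
  have hpk : ∀ p : ℕ, p.Prime → ¬ p ∣ k → ¬ p ∣ 2 * m → ¬ p ∣ 2 * m * k := by
    intro p hp h1 h2 h3
    rcases hp.dvd_mul.1 h3 with h | h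
    · exact h2 h
    · exact h1 h
  have hne : ∀ p : ℕ, p.Prime → ¬ p ∣ k → ¬ p ∣ 2 * m → u p ≠ v p := by
    intro p hp h1 h2 h0
    have hlt := cls_lt (k := k) (b := b % k) hp
    have h3 := cls_spec (t := u p) hp h1 (Nat.mod_eq_of_lt hlt)
    have h4 := cls_spec (t := u p) (b := 2 * m * (b % k) + 1) hp (hpk p hp h1 h2)
      (by rw [Nat.mod_eq_of_lt hlt]; exact h0)
    have h5 : 2 * m * (b % k) + 1 + 2 * m * k * u p = 2 * m * (b % k + k * u p) + 1 := by ring
    rw [h5] at h4
    have h6 : p ∣ 1 := (Nat.dvd_add_right (h3.mul_left (2 * m))).1 h4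
    exact hp.one_lt.ne' (Nat.dvd_one.1 h6)
  have hcard2 : ∀ p : ℕ, p.Prime → ¬ p ∣ k → ¬ p ∣ 2 * m → ({u p, v p} : Finset ℕ).card = 2 :=
    fun p hp h1 h2 => Finset.card_pair (hne p hp h1 h2)
  have hp3 : ∀ p : ℕ, p.Prime → ¬ p ∣ 2 * m → 3 ≤ p := by
    intro p hp hpm
    rcases hp.two_le.lt_or_eq with h | h
    · exact h
    · exact absurd (h ▸ Dvd.intro m rfl) hpm
  have hsieve := sieve2 hw (fun p => if p ∣ 2 * m then {u p} else {u p, v p})
    ((Nat.primesLE w).filter (fun p => ¬ p ∣ k)) (fun p hp => by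
      rw [Finset.mem_filter, Nat.mem_primesLE] at hp
      by_cases hpm : p ∣ 2 * m
      · simp only [if_pos hpm]
        refine ⟨⟨hp.1.2, ?_, ?_, ?_⟩, hp.1.1, ?_⟩
        · simp only [if_pos hpm]
          intro z hz
          rw [Finset.mem_singleton.1 hz]
          exact Finset.mem_range.2 (cls_lt hp.1.2)
        · simp only [if_pos hpm]
          exact Finset.singleton_nonempty _
        · simp only [if_pos hpm]
          rw [Finset.card_singleton]
          exact hp.1.2.one_lt
        · rw [Finset.card_singleton]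
          norm_num
      · simp only [if_neg hpm]
        refine ⟨⟨hp.1.2, ?_, ?_, ?_⟩, hp.1.1, ?_⟩
        · simp only [if_neg hpm]
          intro z hz
          rcases Finset.mem_insert.1 hz with hz | hz
          · rw [hz]
            exact Finset.mem_range.2 (cls_lt hp.1.2)
          · rw [Finset.mem_singleton.1 hz]
            exact Finset.mem_range.2 (cls_lt hp.1.2)
        · simp only [if_neg hpm]
          exact ⟨u p, Finset.mem_insert_self _ _⟩
        · simp only [if_neg hpm]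
          rw [hcard2 p hp.1.2 hp.2 hpm]
          exact hp3 p hp.1.2 hpm
        · rw [hcard2 p hp.1.2 hp.2 hpm]) (y / k + 1) A (Finset.filter_subset _ _)
    (fun t ht p hp hmem => by
      rw [Finset.mem_filter, Nat.mem_primesLE] at hp
      rw [hA, Finset.mem_filter] at ht
      have h0 : t % p ≠ u p := by
        intro h
        have h1 := cls_spec hp.1.2 hp.2 h
        have h2 := (Nat.prime_dvd_prime_iff_eq hp.1.2 ht.2.1.1).1 h1
        have h3 := ht.2.2
        have h4 := hp.1.1
        omega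
      by_cases hpm : p ∣ 2 * m
      · simp only [if_pos hpm] at hmem
        exact h0 (Finset.mem_singleton.1 hmem)
      · simp only [if_neg hpm] at hmem
        rcases Finset.mem_insert.1 hmem with h | h
        · exact h0 h
        · have h1 := cls_spec hp.1.2 (hpk p hp.1.2 hp.2 hpm) (Finset.mem_singleton.1 h)
          have h5 : 2 * m * (b % k) + 1 + 2 * m * k * t = 2 * m * (b % k + k * t) + 1 := by ring
          rw [h5] at h1
          have h2 := (Nat.prime_dvd_prime_iff_eq hp.1.2 ht.2.1.2).1 h1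
          have h3 := ht.2.2
          have h4 := hp.1.1
          have h6 : b % k + k * t ≤ 2 * m * (b % k + k * t) :=
            Nat.le_mul_of_pos_left _ (by omega)
          omega)
  have hφ : (0 : ℝ) < m.totient := by exact_mod_cast Nat.totient_pos.2 hm
  have hm0 : (0 : ℝ) < m := by exact_mod_cast hm
  have hφk : (0 : ℝ) < k.totient := by exact_mod_cast Nat.totient_pos.2 hk
  have hk0 : (0 : ℝ) < k := by exact_mod_cast hk
  have hlog : 0 < Real.log ((w : ℝ) + 1) := Real.log_pos (by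
    have : (2 : ℝ) ≤ w := by exact_mod_cast hw
    linarith)
  have hpos : ∀ p ∈ Nat.primesLE w, 0 < 1 - (p : ℝ)⁻¹ := by
    intro p hp
    have : (1 : ℝ) < p := by exact_mod_cast (Nat.mem_primesLE.1 hp).2.one_lt
    have h5 := inv_lt_one_of_one_lt₀ this
    linarith
  have hY : Real.log (w + 1) * ((k.totient : ℝ) / k) ≤
      ∏ p ∈ (Nat.primesLE w).filter (fun p => ¬ p ∣ k), (1 - (p : ℝ)⁻¹)⁻¹ := by
    have h1 := log_le_prod w
    have h2 := prod_dvd_ge (show k ≠ 0 by omega) w
    have h3 := Finset.prod_filter_mul_prod_filter_not (Nat.primesLE w) (fun p => p ∣ k)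
      (fun p => (1 - (p : ℝ)⁻¹)⁻¹)
    set X := ∏ p ∈ (Nat.primesLE w).filter (fun p => p ∣ k), (1 - (p : ℝ)⁻¹) with hX
    have hXpos : 0 < X := Finset.prod_pos fun p hp => hpos p (Finset.mem_filter.1 hp).1
    rw [Finset.prod_inv_distrib] at h3
    rw [← h3] at h1
    set Y := ∏ p ∈ (Nat.primesLE w).filter (fun p => ¬ p ∣ k), (1 - (p : ℝ)⁻¹)⁻¹ with hY
    calc Real.log (w + 1) * ((k.totient : ℝ) / k) ≤ (X⁻¹ * Y) * X := by
          apply mul_le_mul h1 h2 (by positivity)
          exact hlog.le.trans h1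
      _ = Y := by field_simp
  have hg : (Real.log (w + 1) * ((k.totient : ℝ) / k)) ^ 2 * ((m.totient : ℝ) / (2 * m)) ≤
      ∏ p ∈ (Nat.primesLE w).filter (fun p => ¬ p ∣ k), (1 +
        (((if p ∣ 2 * m then {u p} else {u p, v p} : Finset ℕ).card : ℕ) : ℝ) /
        ((p : ℝ) - ((if p ∣ 2 * m then {u p} else {u p, v p} : Finset ℕ).card : ℕ))) := by
    have h2 : ((2 * m).totient : ℝ) / ((2 * m : ℕ) : ℝ) ≤
        ∏ p ∈ ((Nat.primesLE w).filter (fun p => ¬ p ∣ k)).filter (fun p => p ∣ 2 * m),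
          (1 - (p : ℝ)⁻¹) := by
      refine (prod_dvd_ge (show 2 * m ≠ 0 by omega) w).trans ?_
      have hsub : ((Nat.primesLE w).filter (fun p => ¬ p ∣ k)).filter (fun p => p ∣ 2 * m) ⊆
          (Nat.primesLE w).filter (fun p => p ∣ 2 * m) := by
        intro p hp
        rw [Finset.mem_filter, Finset.mem_filter] at hp
        exact Finset.mem_filter.2 ⟨hp.1.1, hp.2⟩
      rw [← Finset.prod_sdiff hsub]
      have h5 : ∏ p ∈ (Nat.primesLE w).filter (fun p => p ∣ 2 * m) \
          ((Nat.primesLE w).filter (fun p => ¬ p ∣ k)).filter (fun p => p ∣ 2 * m),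
          (1 - (p : ℝ)⁻¹) ≤ 1 := by
        refine Finset.prod_le_one (fun p hp => ?_) (fun p hp => ?_)
        · exact (hpos p (Finset.mem_filter.1 (Finset.mem_sdiff.1 hp).1).1).le
        · have : 0 ≤ (p : ℝ)⁻¹ := by positivity
          linarith
      have h6 : 0 ≤ ∏ p ∈ ((Nat.primesLE w).filter (fun p => ¬ p ∣ k)).filter
          (fun p => p ∣ 2 * m), (1 - (p : ℝ)⁻¹) :=
        Finset.prod_nonneg fun p hp =>
          (hpos p (Finset.mem_filter.1 (Finset.mem_filter.1 hp).1).1).le
      calc _ ≤ 1 * ∏ p ∈ ((Nat.primesLE w).filter (fun p => ¬ p ∣ k)).filter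
            (fun p => p ∣ 2 * m), (1 - (p : ℝ)⁻¹) := mul_le_mul_of_nonneg_right h5 h6
        _ = _ := one_mul _
    have h4 : (m.totient : ℝ) / (2 * m) ≤ (((2 * m).totient : ℕ) : ℝ) / ((2 * m : ℕ) : ℝ) := by
      have h5 : m.totient ≤ (2 * m).totient :=
        Nat.le_of_dvd (Nat.totient_pos.2 (by omega)) (Nat.totient_dvd_of_dvd (Dvd.intro_left 2 rfl))
      push_cast
      have h6 : (m.totient : ℝ) ≤ ((2 * m).totient : ℝ) := by exact_mod_cast h5
      gcongr
    have h5 : (∏ p ∈ (Nat.primesLE w).filter (fun p => ¬ p ∣ k), (1 - (p : ℝ)⁻¹)⁻¹) ^ 2 *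
        ∏ p ∈ ((Nat.primesLE w).filter (fun p => ¬ p ∣ k)).filter (fun p => p ∣ 2 * m),
          (1 - (p : ℝ)⁻¹) =
        ∏ p ∈ (Nat.primesLE w).filter (fun p => ¬ p ∣ k), (((1 - (p : ℝ)⁻¹)⁻¹) ^ 2 *
          (if p ∣ 2 * m then (1 - (p : ℝ)⁻¹) else 1)) := by
      rw [Finset.prod_mul_distrib, Finset.prod_filter (fun p => p ∣ 2 * m), Finset.prod_pow]
    calc (Real.log (w + 1) * ((k.totient : ℝ) / k)) ^ 2 * ((m.totient : ℝ) / (2 * m))
        ≤ (∏ p ∈ (Nat.primesLE w).filter (fun p => ¬ p ∣ k), (1 - (p : ℝ)⁻¹)⁻¹) ^ 2 *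
          ∏ p ∈ ((Nat.primesLE w).filter (fun p => ¬ p ∣ k)).filter (fun p => p ∣ 2 * m),
            (1 - (p : ℝ)⁻¹) := by
          apply mul_le_mul (pow_le_pow_left₀ (by positivity) hY 2) (h4.trans h2) (by positivity)
          positivity
      _ = _ := h5
      _ ≤ _ := by
          refine Finset.prod_le_prod (fun p hp => ?_) (fun p hp => ?_)
          · have h6 := hpos p (Finset.mem_filter.1 hp).1
            split_ifs <;> positivity
          · rw [Finset.mem_filter] at hp
            have hpp := (Nat.mem_primesLE.1 hp.1).2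
            have h6 := hpos p hp.1
            have h7 : (2 : ℝ) ≤ p := by exact_mod_cast hpp.two_le
            have h8 : 1 - (p : ℝ)⁻¹ = (p - 1) / p := by
              field_simp
            have h9 : (p : ℝ) - 1 ≠ 0 := by linarith
            have h10 : (p : ℝ) ≠ 0 := by linarith
            by_cases hpm : p ∣ 2 * m
            · rw [if_pos hpm, if_pos hpm, Finset.card_singleton, Nat.cast_one, h8, inv_div]
              apply le_of_eq
              field_simp
              ring
            · rw [if_neg hpm, if_neg hpm, hcard2 p hpp hp.2 hpm, h8, inv_div]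
              have h11 : (3 : ℝ) ≤ p := by exact_mod_cast hp3 p hpp hpm
              have h12 : (p : ℝ) - 2 ≠ 0 := by linarith
              push_cast
              have h13 : 1 + 2 / ((p : ℝ) - 2) = p / (p - 2) := by
                field_simp
                ring
              rw [h13, mul_one, div_pow, div_le_div_iff₀ (by nlinarith) (by linarith)]
              nlinarith
  have h5 := bound_of hsieve (by positivity) hg (by positivity)
  have h6 : 2 * (((y / k + 1 : ℕ) : ℝ)) /
      ((Real.log (w + 1) * ((k.totient : ℝ) / k)) ^ 2 * ((m.totient : ℝ) / (2 * m))) ≤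
      8 * (y / k) * ((k / k.totient) ^ 2 * (m / m.totient)) / Real.log (w + 1) ^ 2 := by
    have h7 : ((y / k + 1 : ℕ) : ℝ) ≤ 2 * (y / k) := by
      push_cast
      have h8 : ((y / k : ℕ) : ℝ) ≤ (y : ℝ) / k := Nat.cast_div_le
      have h9 : (1 : ℝ) ≤ (y : ℝ) / k := by
        rw [le_div_iff₀ hk0, one_mul]
        exact_mod_cast hky
      linarith
    calc 2 * (((y / k + 1 : ℕ) : ℝ)) /
          ((Real.log (w + 1) * ((k.totient : ℝ) / k)) ^ 2 * ((m.totient : ℝ) / (2 * m)))
        ≤ 2 * (2 * ((y : ℝ) / k)) /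
          ((Real.log (w + 1) * ((k.totient : ℝ) / k)) ^ 2 * ((m.totient : ℝ) / (2 * m))) := by
          gcongr
      _ = _ := by field_simp; ring
  have h7 : (S.card : ℝ) ≤ w + A.card := by exact_mod_cast hcard
  linarith

/-- primes `r ≤ y`, `r ≡ b mod k`, with `2 m r + 1` prime -/
theorem pairsAP : ∃ C : ℝ, 0 < C ∧ ∀ m y k b : ℕ, 1 ≤ m → 1 ≤ k → 2 * k ≤ y →
    (((Icc 1 y).filter (fun r => (r.Prime ∧ (2 * m * r + 1).Prime) ∧ r ≡ b [MOD k])).card : ℝ) ≤
      C * (((k / k.totient) ^ 2 * (m / m.totient)) *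
        ((y / k) / Real.log ((y : ℝ) / k) ^ 2)) := by
  refine ⟨2 ^ 154 + 720000, by positivity, fun m y k b hm hk hky => ?_⟩
  have hφ : (0 : ℝ) < m.totient := by exact_mod_cast Nat.totient_pos.2 hm
  have hφm : (m.totient : ℝ) ≤ m := by exact_mod_cast Nat.totient_le m
  have hφk : (0 : ℝ) < k.totient := by exact_mod_cast Nat.totient_pos.2 hk
  have hφkk : (k.totient : ℝ) ≤ k := by exact_mod_cast Nat.totient_le k
  have hk0 : (0 : ℝ) < k := by exact_mod_cast hk
  have hy' : (2 : ℝ) ≤ (y : ℝ) / k := by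
    rw [le_div_iff₀ hk0]
    exact_mod_cast hky
  set Z : ℝ := (y : ℝ) / k with hZ
  have hlog : 0 < Real.log Z := Real.log_pos (by linarith)
  obtain ⟨w, hw, h1, h2⟩ := exists_w (y := Z) (by linarith)
  have h3 := pairsAP_card hw b hm hk (by omega : k ≤ y)
  rw [← hZ] at h3
  have h4 := sqrt_le_log_sq (y := Z) (by linarith)
  have hone : (1 : ℝ) ≤ m / m.totient := by
    rw [le_div_iff₀ hφ, one_mul]
    exact hφm
  have honek : (1 : ℝ) ≤ k / k.totient := by
    rw [le_div_iff₀ hφk, one_mul]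
    exact hφkk
  set U : ℝ := ((k : ℝ) / k.totient) ^ 2 * (m / m.totient) with hU
  have hU1 : 1 ≤ U := by
    rw [hU]
    have : (1 : ℝ) ≤ ((k : ℝ) / k.totient) ^ 2 := one_le_pow₀ honek
    nlinarith
  have h5 : 8 * Z * U / Real.log (w + 1) ^ 2 ≤ 720000 * (U * (Z / Real.log Z ^ 2)) := by
    calc 8 * Z * U / Real.log (w + 1) ^ 2
        ≤ 8 * Z * U / (Real.log Z / 300) ^ 2 := by gcongr
      _ = _ := by field_simp; norm_num
  have h7 : 2 ^ 150 * √Z ≤ 2 ^ 154 * (U * (Z / Real.log Z ^ 2)) := by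
    have h8 : Z / Real.log Z ^ 2 ≤ U * (Z / Real.log Z ^ 2) :=
      le_mul_of_one_le_left (by positivity) hU1
    calc 2 ^ 150 * √Z ≤ 2 ^ 150 * (16 * (U * (Z / Real.log Z ^ 2))) := by
          have := h4.trans (mul_le_mul_of_nonneg_left h8 (by norm_num : (0 : ℝ) ≤ 16))
          gcongr
      _ = _ := by ring
  rw [add_mul]
  linarith

end Pool.Agent.helper18.CR
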