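import Pool.Agent.helper18.CR.C
import Pool.Agent.helper10.BV.D8

/-!
# MP_5710e5_nt (helper18): the two sieve bounds in final form
-/

set_option autoImplicit false

open Finset

namespace Pool.Agent.helper18.CR

theorem exists_w {y : ℝ} (hy : 1 ≤ y) : ∃ w : ℕ, 2 ≤ w ∧ (w : ℝ) + (w : ℝ) ^ 148 ≤ 2 ^ 150 * √y ∧
    Real.log y / 300 ≤ Real.log (w + 1) := by
  have hy0 : 0 < y := by linarith
  set t : ℝ := y ^ ((1 : ℝ) / 300) with ht
  have ht1 : 1 ≤ t := Real.one_le_rpow hy (by norm_num)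
  have hlogt : Real.log t = Real.log y / 300 := by
    rw [ht, Real.log_rpow hy0]
    ring
  have hsq : 1 ≤ √y := Real.one_le_sqrt.2 hy
  rcases le_or_gt 2 ⌊t⌋₊ with hc | hc
  · refine ⟨⌊t⌋₊, hc, ?_, ?_⟩
    · have h1 : ((⌊t⌋₊ : ℕ) : ℝ) ≤ t := Nat.floor_le (by linarith)
      have h2 : (1 : ℝ) ≤ ((⌊t⌋₊ : ℕ) : ℝ) := by exact_mod_cast (show 1 ≤ ⌊t⌋₊ by omega)
      have h3 : ((⌊t⌋₊ : ℕ) : ℝ) ^ 148 ≤ √y := by
        calc ((⌊t⌋₊ : ℕ) : ℝ) ^ 148 ≤ t ^ 148 := by gcongr
          _ = y ^ ((148 : ℝ) / 300) := by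
              rw [ht, ← Real.rpow_natCast, ← Real.rpow_mul hy0.le]
              norm_num
          _ ≤ y ^ ((1 : ℝ) / 2) := Real.rpow_le_rpow_of_exponent_le hy (by norm_num)
          _ = √y := (Real.sqrt_eq_rpow y).symm
      have h4 : ((⌊t⌋₊ : ℕ) : ℝ) ≤ ((⌊t⌋₊ : ℕ) : ℝ) ^ 148 := le_self_pow₀ h2 (by norm_num)
      have h5 : 2 * √y ≤ 2 ^ 150 * √y := by
        apply mul_le_mul_of_nonneg_right _ (by linarith)
        norm_num
      linarith
    · rw [← hlogt]
      exact Real.log_le_log (by linarith) (Nat.lt_floor_add_one t).le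
  · refine ⟨2, le_rfl, ?_, ?_⟩
    · push_cast
      calc (2 : ℝ) + 2 ^ 148 ≤ 2 ^ 150 * 1 := by norm_num
        _ ≤ 2 ^ 150 * √y := by gcongr
    · rw [← hlogt]
      apply Real.log_le_log (by linarith)
      have h1 := Nat.lt_floor_add_one t
      have h2 : ((⌊t⌋₊ : ℕ) : ℝ) ≤ 1 := by exact_mod_cast (show ⌊t⌋₊ ≤ 1 by omega)
      push_cast
      linarith

theorem sqrt_le_log {y : ℝ} (hy : 1 < y) : √y ≤ 2 * (y / Real.log y) := by
  have hlog : 0 < Real.log y := Real.log_pos hy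
  rw [mul_div_assoc', le_div_iff₀ hlog]
  have h9 : Real.log y ≤ 2 * √y := by
    have := Real.log_le_rpow_div (by linarith : 0 ≤ y) (show (0 : ℝ) < 1 / 2 by norm_num)
    rw [← Real.sqrt_eq_rpow] at this
    linarith
  have h10 : √y * √y = y := Real.mul_self_sqrt (by linarith)
  nlinarith [Real.sqrt_nonneg y]

theorem sqrt_le_log_sq {y : ℝ} (hy : 1 < y) : √y ≤ 16 * (y / Real.log y ^ 2) := by
  have hlog : 0 < Real.log y := Real.log_pos hy
  rw [mul_div_assoc', le_div_iff₀ (by positivity)]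
  have h9 : Real.log y ≤ 4 * √(√y) := by
    have := Real.log_le_rpow_div (by linarith : 0 ≤ y) (show (0 : ℝ) < 1 / 4 by norm_num)
    have h1 : √(√y) = y ^ ((1 : ℝ) / 4) := by
      rw [Real.sqrt_eq_rpow, Real.sqrt_eq_rpow, ← Real.rpow_mul (by linarith)]
      norm_num
    rw [← h1] at this
    linarith
  have h10 : √y * √y = y := Real.mul_self_sqrt (by linarith)
  have h11 : √(√y) * √(√y) = √y := Real.mul_self_sqrt (Real.sqrt_nonneg _)
  have h12 : Real.log y ^ 2 ≤ 16 * √y := by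
    calc Real.log y ^ 2 ≤ (4 * √(√y)) ^ 2 := by gcongr
      _ = 16 * (√(√y) * √(√y)) := by ring
      _ = _ := by rw [h11]
  calc √y * Real.log y ^ 2 ≤ √y * (16 * √y) := by gcongr
    _ = 16 * (√y * √y) := by ring
    _ = _ := by rw [h10]

/-- Brun-Titchmarsh with an unspecified constant -/
theorem bt : ∃ C : ℝ, 0 < C ∧ ∀ x k b : ℕ, 1 ≤ k → 2 * k ≤ x →
    (((Icc 1 x).filter (fun q => q.Prime ∧ q ≡ b [MOD k])).card : ℝ) ≤
      C * (x / (k.totient * Real.log ((x : ℝ) / k))) := by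
  refine ⟨2 ^ 151 + 1200, by positivity, fun x k b hk hkx => ?_⟩
  have hk0 : (0 : ℝ) < k := by exact_mod_cast hk
  have hφ : (0 : ℝ) < k.totient := by exact_mod_cast Nat.totient_pos.2 hk
  have hφk : (k.totient : ℝ) ≤ k := by exact_mod_cast Nat.totient_le k
  have hy : (2 : ℝ) ≤ (x : ℝ) / k := by
    rw [le_div_iff₀ hk0]
    exact_mod_cast hkx
  have hlog : 0 < Real.log ((x : ℝ) / k) := Real.log_pos (by linarith)
  obtain ⟨w, hw, h1, h2⟩ := exists_w (y := (x : ℝ) / k) (by linarith)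
  have h3 := bt_card hw hk (by omega : k ≤ x) b
  have h4 := sqrt_le_log (y := (x : ℝ) / k) (by linarith)
  have h5 : 4 * (x : ℝ) / (k.totient * Real.log (w + 1)) ≤
      1200 * (x / (k.totient * Real.log ((x : ℝ) / k))) := by
    calc 4 * (x : ℝ) / (k.totient * Real.log (w + 1))
        ≤ 4 * (x : ℝ) / (k.totient * (Real.log ((x : ℝ) / k) / 300)) := by gcongr
      _ = _ := by field_simp; ring
  have h6 : (x : ℝ) / k / Real.log ((x : ℝ) / k) ≤ x / (k.totient * Real.log ((x : ℝ) / k)) := by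
    rw [div_div]
    gcongr
  have h7 : 2 ^ 150 * √((x : ℝ) / k) ≤ 2 ^ 151 * (x / (k.totient * Real.log ((x : ℝ) / k))) := by
    calc 2 ^ 150 * √((x : ℝ) / k) ≤ 2 ^ 150 * (2 * (x / (k.totient * Real.log ((x : ℝ) / k)))) := by
          have := h4.trans (mul_le_mul_of_nonneg_left h6 (by norm_num : (0 : ℝ) ≤ 2))
          gcongr
      _ = _ := by ring
  rw [add_mul]
  linarith

/-- primes `r ≤ y` with `2 m r + 1` prime -/
theorem pairs : ∃ C : ℝ, 0 < C ∧ ∀ m y : ℕ, 1 ≤ m → 2 ≤ y →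
    (((Icc 1 y).filter (fun r => r.Prime ∧ (2 * m * r + 1).Prime)).card : ℝ) ≤
      C * ((m / m.totient) * (y / Real.log y ^ 2)) := by
  refine ⟨2 ^ 154 + 720000, by positivity, fun m y hm hy => ?_⟩
  have hφ : (0 : ℝ) < m.totient := by exact_mod_cast Nat.totient_pos.2 hm
  have hφk : (m.totient : ℝ) ≤ m := by exact_mod_cast Nat.totient_le m
  have hy' : (2 : ℝ) ≤ (y : ℝ) := by exact_mod_cast hy
  have hlog : 0 < Real.log (y : ℝ) := Real.log_pos (by linarith)
  obtain ⟨w, hw, h1, h2⟩ := exists_w (y := (y : ℝ)) (by linarith)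
  have h3 := pairs_card hw hm (by omega : 1 ≤ y)
  have h4 := sqrt_le_log_sq (y := (y : ℝ)) (by linarith)
  have hone : (1 : ℝ) ≤ m / m.totient := by
    rw [le_div_iff₀ hφ, one_mul]
    exact hφk
  have h5 : 8 * (y : ℝ) * (m / m.totient) / Real.log (w + 1) ^ 2 ≤
      720000 * ((m / m.totient) * (y / Real.log y ^ 2)) := by
    calc 8 * (y : ℝ) * (m / m.totient) / Real.log (w + 1) ^ 2
        ≤ 8 * (y : ℝ) * (m / m.totient) / (Real.log y / 300) ^ 2 := by gcongr
      _ = _ := by field_simp; norm_num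
  have h7 : 2 ^ 150 * √(y : ℝ) ≤ 2 ^ 154 * ((m / m.totient) * (y / Real.log y ^ 2)) := by
    have h8 : (y : ℝ) / Real.log y ^ 2 ≤ (m / m.totient) * (y / Real.log y ^ 2) :=
      le_mul_of_one_le_left (by positivity) hone
    calc 2 ^ 150 * √(y : ℝ) ≤ 2 ^ 150 * (16 * ((m / m.totient) * (y / Real.log y ^ 2))) := by
          have := h4.trans (mul_le_mul_of_nonneg_left h8 (by norm_num : (0 : ℝ) ≤ 16))
          gcongr
      _ = _ := by ring
  rw [add_mul]
  linarith

/-- `1 / φ` -/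
noncomputable def phinv : ArithmeticFunction ℝ := ⟨fun n => 1 / (n.totient : ℝ), by simp⟩

theorem phinv_apply (n : ℕ) : phinv n = 1 / (n.totient : ℝ) := rfl

theorem phinv_mult : phinv.IsMultiplicative := by
  refine ⟨by simp [phinv_apply], fun {m n} h => ?_⟩
  rw [phinv_apply, phinv_apply, phinv_apply, Nat.totient_mul h]
  push_cast
  rw [one_div, mul_inv, one_div, one_div]

theorem div_totient_le_sum (m : ℕ) (hm : 0 < m) :
    (m : ℝ) / m.totient ≤ ∑ d ∈ m.divisors, 1 / (d.totient : ℝ) := by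
  have key : ∀ m : ℕ, 0 < m → (m : ℝ) / m.totient ≤ (phinv * ArithmeticFunction.zeta) m := by
    intro m
    have hmul : (phinv * (ArithmeticFunction.zeta : ArithmeticFunction ℝ)).IsMultiplicative :=
      phinv_mult.mul ArithmeticFunction.isMultiplicative_zeta.natCast
    induction m using Nat.recOnPosPrimePosCoprime with
    | prime_pow p n hp hn =>
      intro _
      rw [ArithmeticFunction.coe_mul_zeta_apply]
      have hsub : ({1, p} : Finset ℕ) ⊆ (p ^ n).divisors := by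
        intro x hx
        rw [Nat.mem_divisors]
        refine ⟨?_, pow_ne_zero _ hp.ne_zero⟩
        rcases Finset.mem_insert.1 hx with rfl | hx
        · exact one_dvd _
        · rw [Finset.mem_singleton.1 hx]
          exact dvd_pow_self p hn.ne'
      have h1 : ∑ d ∈ ({1, p} : Finset ℕ), phinv d ≤ ∑ d ∈ (p ^ n).divisors, phinv d :=
        Finset.sum_le_sum_of_subset_of_nonneg hsub fun d _ _ => by
          rw [phinv_apply]
          positivity
      refine le_trans (le_of_eq ?_) h1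
      rw [Finset.sum_pair hp.one_lt.ne, phinv_apply, phinv_apply, Nat.totient_one,
        Nat.totient_prime hp, Nat.totient_prime_pow hp hn]
      have h2 : (2 : ℝ) ≤ p := by exact_mod_cast hp.two_le
      have h3 : ((p - 1 : ℕ) : ℝ) = (p : ℝ) - 1 := by
        rw [Nat.cast_sub hp.one_le]
        simp
      have h4 : (p : ℝ) - 1 ≠ 0 := by linarith
      have h5 : (p : ℝ) ≠ 0 := by linarith
      obtain ⟨k, rfl⟩ : ∃ k, n = k + 1 := ⟨n - 1, by omega⟩
      rw [Nat.add_sub_cancel]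
      push_cast
      rw [h3]
      field_simp
      ring
    | zero => intro h; exact absurd h (lt_irrefl _)
    | one =>
      intro _
      rw [hmul.map_one]
      simp
    | coprime a b ha hb hab iha ihb =>
      intro _
      rw [hmul.map_mul_of_coprime hab, Nat.totient_mul hab]
      have h1 := iha (by omega)
      have h2 := ihb (by omega)
      have h3 : ((a * b : ℕ) : ℝ) / ((a.totient * b.totient : ℕ) : ℝ) =
          ((a : ℝ) / a.totient) * ((b : ℝ) / b.totient) := by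
        push_cast
        rw [mul_div_mul_comm]
      rw [h3]
      have h4 : (0 : ℝ) ≤ (a : ℝ) / a.totient := by positivity
      exact mul_le_mul h1 h2 (by positivity) (h4.trans h1)
  have h := key m hm
  rw [ArithmeticFunction.coe_mul_zeta_apply] at h
  exact h

theorem harm_le (M : ℕ) : ∑ m ∈ Icc 1 M, 1 / (m : ℝ) ≤ 1 + Real.log M := by
  have h := harmonic_le_one_add_log M
  rw [harmonic_eq_sum_Icc] at h
  push_cast at h
  simpa using h

/-- `∑_{m ≤ M} 1 / φ(m) ≤ C (1 + log M)` -/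
theorem sum_inv_totient : ∃ C : ℝ, 0 < C ∧ ∀ M : ℕ,
    ∑ m ∈ Icc 1 M, 1 / (m.totient : ℝ) ≤ C * (1 + Real.log M) := by
  have hsum : Summable fun d : ℕ => 9 * (1 / (d : ℝ) ^ ((3 : ℝ) / 2)) :=
    (Real.summable_one_div_nat_rpow.2 (by norm_num)).mul_left 9
  have hC : ∀ M : ℕ, ∑ d ∈ Icc 1 M, 1 / (d.totient : ℝ) * (1 / (d : ℝ)) ≤
      ∑' d : ℕ, 9 * (1 / (d : ℝ) ^ ((3 : ℝ) / 2)) := by
    intro M
    refine le_trans (Finset.sum_le_sum (fun d hd => ?_))
      (hsum.sum_le_tsum (Icc 1 M) (fun d _ => by positivity))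
    rw [Finset.mem_Icc] at hd
    have hd0 : (0 : ℝ) < d := by exact_mod_cast hd.1
    have hd1 : (1 : ℝ) ≤ d := by exact_mod_cast hd.1
    have h1 := BVM.div_totient_le (m := d) (by omega)
    have h2 : Real.log d ≤ 4 * (d : ℝ) ^ ((1 : ℝ) / 4) := by
      have := Real.log_le_rpow_div hd0.le (show (0 : ℝ) < 1 / 4 by norm_num)
      linarith
    have h3 : (d : ℝ) ^ ((1 : ℝ) / 4) ≤ (d : ℝ) ^ ((1 : ℝ) / 2) :=
      Real.rpow_le_rpow_of_exponent_le hd1 (by norm_num)
    have h4 : (1 : ℝ) ≤ (d : ℝ) ^ ((1 : ℝ) / 2) := Real.one_le_rpow hd1 (by norm_num)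
    have h5 : (d : ℝ) / d.totient ≤ 9 * (d : ℝ) ^ ((1 : ℝ) / 2) := by linarith
    have h6 : (d : ℝ) ^ ((3 : ℝ) / 2) * (d : ℝ) ^ ((1 : ℝ) / 2) = (d : ℝ) * d := by
      rw [← Real.rpow_add hd0]
      norm_num
      rw [sq]
    have hφ : (0 : ℝ) < d.totient := by exact_mod_cast Nat.totient_pos.2 hd.1
    have hr : (0 : ℝ) < (d : ℝ) ^ ((3 : ℝ) / 2) := Real.rpow_pos_of_pos hd0 _
    calc 1 / (d.totient : ℝ) * (1 / (d : ℝ)) = ((d : ℝ) / d.totient) / (d * d) := by
          field_simp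
      _ ≤ (9 * (d : ℝ) ^ ((1 : ℝ) / 2)) / (d * d) := by gcongr
      _ = 9 * (1 / (d : ℝ) ^ ((3 : ℝ) / 2)) := by
          rw [← h6]
          have : (0 : ℝ) < (d : ℝ) ^ ((1 : ℝ) / 2) := by linarith
          field_simp
  set C0 : ℝ := ∑' d : ℕ, 9 * (1 / (d : ℝ) ^ ((3 : ℝ) / 2)) with hC0
  have hC00 : 0 ≤ C0 := tsum_nonneg fun d => by positivity
  refine ⟨C0 + 1, by linarith, fun M => ?_⟩
  have hlog : 0 ≤ Real.log (M : ℝ) := Real.log_natCast_nonneg M
  have h1 : ∑ m ∈ Icc 1 M, 1 / (m.totient : ℝ) ≤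
      ∑ m ∈ Icc 1 M, ∑ d ∈ Icc 1 M, (if d ∣ m then 1 / (d.totient : ℝ) * (1 / (m : ℝ)) else 0) := by
    refine Finset.sum_le_sum (fun m hm => ?_)
    rw [Finset.mem_Icc] at hm
    have hm0 : (0 : ℝ) < m := by exact_mod_cast hm.1
    have h2 := div_totient_le_sum m (by omega)
    have hφ : (0 : ℝ) < m.totient := by exact_mod_cast Nat.totient_pos.2 hm.1
    have h3 : m.divisors ⊆ (Icc 1 M).filter (fun d => d ∣ m) := by
      intro d hd
      rw [Nat.mem_divisors] at hd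
      have h4 := Nat.le_of_dvd (by omega) hd.1
      have h5 := Nat.pos_of_dvd_of_pos hd.1 (by omega : 0 < m)
      rw [Finset.mem_filter, Finset.mem_Icc]
      exact ⟨⟨h5, by omega⟩, hd.1⟩
    rw [← Finset.sum_filter]
    calc 1 / (m.totient : ℝ) = ((m : ℝ) / m.totient) * (1 / m) := by field_simp
      _ ≤ (∑ d ∈ m.divisors, 1 / (d.totient : ℝ)) * (1 / m) := by gcongr
      _ = ∑ d ∈ m.divisors, 1 / (d.totient : ℝ) * (1 / m) := by rw [Finset.sum_mul]
      _ ≤ _ := Finset.sum_le_sum_of_subset_of_nonneg h3 (fun _ _ _ => by positivity)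
  rw [Finset.sum_comm] at h1
  have h2 : ∀ d ∈ Icc 1 M, ∑ m ∈ Icc 1 M,
      (if d ∣ m then 1 / (d.totient : ℝ) * (1 / (m : ℝ)) else 0) ≤
      1 / (d.totient : ℝ) * (1 / (d : ℝ)) * (1 + Real.log M) := by
    intro d hd
    rw [Finset.mem_Icc] at hd
    have hd0 : (0 : ℝ) < d := by exact_mod_cast hd.1
    rw [← Finset.sum_filter]
    have hsub : (Icc 1 M).filter (fun m => d ∣ m) ⊆ (Icc 1 M).image (fun t => d * t) := by
      intro m hm
      rw [Finset.mem_filter, Finset.mem_Icc] at hm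
      obtain ⟨⟨h3, h4⟩, t, rfl⟩ := hm
      rw [Finset.mem_image]
      refine ⟨t, ?_, rfl⟩
      rw [Finset.mem_Icc]
      constructor
      · exact Nat.pos_of_ne_zero (by rintro rfl; simp at h3)
      · exact (Nat.le_mul_of_pos_left t hd.1).trans h4
    calc ∑ m ∈ (Icc 1 M).filter (fun m => d ∣ m), 1 / (d.totient : ℝ) * (1 / (m : ℝ))
        ≤ ∑ m ∈ (Icc 1 M).image (fun t => d * t), 1 / (d.totient : ℝ) * (1 / (m : ℝ)) :=
          Finset.sum_le_sum_of_subset_of_nonneg hsub (fun _ _ _ => by positivity)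
      _ = ∑ t ∈ Icc 1 M, 1 / (d.totient : ℝ) * (1 / ((d * t : ℕ) : ℝ)) :=
          Finset.sum_image (fun a _ b _ h => Nat.eq_of_mul_eq_mul_left hd.1 h)
      _ = 1 / (d.totient : ℝ) * (1 / (d : ℝ)) * ∑ t ∈ Icc 1 M, 1 / (t : ℝ) := by
          rw [Finset.mul_sum]
          refine Finset.sum_congr rfl (fun t _ => ?_)
          push_cast
          rw [one_div_mul_one_div_rev, one_div_mul_one_div_rev, one_div_mul_one_div_rev]
          ring
      _ ≤ _ := by
          have := harm_le M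
          gcongr
  calc ∑ m ∈ Icc 1 M, 1 / (m.totient : ℝ) ≤ _ := h1
    _ ≤ ∑ d ∈ Icc 1 M, 1 / (d.totient : ℝ) * (1 / (d : ℝ)) * (1 + Real.log M) :=
        Finset.sum_le_sum h2
    _ = (∑ d ∈ Icc 1 M, 1 / (d.totient : ℝ) * (1 / (d : ℝ))) * (1 + Real.log M) := by
        rw [Finset.sum_mul]
    _ ≤ (C0 + 1) * (1 + Real.log M) := by
        apply mul_le_mul_of_nonneg_right _ (by linarith)
        linarith [hC M]

end Pool.Agent.helper18.CR
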