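import Pool.Agent.helper18.CR.C2

/-!
# MP_5710e5_nt (helper18): `∑ 1 / φ(m)` over `m ≤ M` coprime to `k`
-/

set_option autoImplicit false

open Finset

namespace Pool.Agent.helper18.CR

theorem harm_coprime {k : ℕ} (hk : 1 ≤ k) (M : ℕ) :
    ∑ t ∈ (Icc 1 M).filter (fun t => Nat.Coprime k t), 1 / (t : ℝ) ≤
      (1 + Real.log k) + (k.totient : ℝ) / k * (1 + Real.log M) := by
  classical
  have hk0 : (0 : ℝ) < k := by exact_mod_cast hk
  have hsplit : ∑ t ∈ (Icc 1 M).filter (fun t => Nat.Coprime k t), 1 / (t : ℝ) ≤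
      ∑ t ∈ Icc 1 k, 1 / (t : ℝ) + ∑ t ∈ (Ioc k M).filter (fun t => Nat.Coprime k t),
        1 / (t : ℝ) := by
    have hsub : (Icc 1 M).filter (fun t => Nat.Coprime k t) ⊆
        Icc 1 k ∪ (Ioc k M).filter (fun t => Nat.Coprime k t) := by
      intro t ht
      rw [Finset.mem_filter, Finset.mem_Icc] at ht
      rw [Finset.mem_union, Finset.mem_filter, Finset.mem_Icc, Finset.mem_Ioc]
      rcases le_or_gt t k with h | h
      · exact Or.inl ⟨ht.1.1, h⟩
      · exact Or.inr ⟨⟨h, ht.1.2⟩, ht.2⟩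
    refine (Finset.sum_le_sum_of_subset_of_nonneg hsub (fun _ _ _ => by positivity)).trans ?_
    rw [Finset.sum_union]
    rw [Finset.disjoint_left]
    intro t h1 h2
    rw [Finset.mem_Icc] at h1
    rw [Finset.mem_filter, Finset.mem_Ioc] at h2
    omega
  have h1 := harm_le k
  have h2 : ∑ t ∈ (Ioc k M).filter (fun t => Nat.Coprime k t), 1 / (t : ℝ) ≤
      (k.totient : ℝ) / k * (1 + Real.log M) := by
    have hmaps : ∀ t ∈ (Ioc k M).filter (fun t => Nat.Coprime k t), t / k ∈ Icc 1 M := by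
      intro t ht
      rw [Finset.mem_filter, Finset.mem_Ioc] at ht
      rw [Finset.mem_Icc]
      refine ⟨(Nat.one_le_div_iff (by omega)).2 ht.1.1.le, (Nat.div_le_self _ _).trans ht.1.2⟩
    rw [← Finset.sum_fiberwise_of_maps_to hmaps]
    have h3 : ∀ j ∈ Icc 1 M, ∑ t ∈ ((Ioc k M).filter (fun t => Nat.Coprime k t)).filter
        (fun t => t / k = j), 1 / (t : ℝ) ≤ (k.totient : ℝ) / k * (1 / (j : ℝ)) := by
      intro j hj
      rw [Finset.mem_Icc] at hj
      have hj0 : (0 : ℝ) < j := by exact_mod_cast hj.1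
      have h4 : ∀ t ∈ ((Ioc k M).filter (fun t => Nat.Coprime k t)).filter
          (fun t => t / k = j), 1 / (t : ℝ) ≤ 1 / (k * j) := by
        intro t ht
        rw [Finset.mem_filter] at ht
        have h5 : k * j ≤ t := by
          rw [← ht.2]
          exact Nat.mul_div_le t k
        have h6 : (k : ℝ) * j ≤ t := by exact_mod_cast h5
        gcongr
      have h5 : (((Ioc k M).filter (fun t => Nat.Coprime k t)).filter
          (fun t => t / k = j)).card ≤ k.totient := by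
        rw [← Nat.filter_coprime_Ico_eq_totient k (k * j)]
        refine Finset.card_le_card ?_
        intro t ht
        rw [Finset.mem_filter, Finset.mem_filter, Finset.mem_Ioc] at ht
        rw [Finset.mem_filter, Finset.mem_Ico]
        refine ⟨⟨?_, ?_⟩, ht.1.2⟩
        · rw [← ht.2]
          exact Nat.mul_div_le t k
        · rw [← ht.2]
          have := Nat.lt_mul_div_succ t (show 0 < k by omega)
          rw [mul_add, mul_one] at this
          exact this
      calc ∑ t ∈ ((Ioc k M).filter (fun t => Nat.Coprime k t)).filter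
            (fun t => t / k = j), 1 / (t : ℝ) ≤ _ := Finset.sum_le_card_nsmul _ _ _ h4
        _ = ((((Ioc k M).filter (fun t => Nat.Coprime k t)).filter
            (fun t => t / k = j)).card : ℝ) * (1 / (k * j)) := nsmul_eq_mul _ _
        _ ≤ (k.totient : ℝ) * (1 / (k * j)) := by
            have h6 : ((((Ioc k M).filter (fun t => Nat.Coprime k t)).filter
              (fun t => t / k = j)).card : ℝ) ≤ k.totient := by exact_mod_cast h5
            gcongr
        _ = _ := by field_simp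
    refine (Finset.sum_le_sum h3).trans ?_
    rw [← Finset.mul_sum]
    have := harm_le M
    gcongr
  linarith

/-- `∑ 1 / φ(m)` over the `m ≤ M` coprime to `k` -/
theorem sum_inv_totient_coprime : ∃ C : ℝ, 0 < C ∧ ∀ k M : ℕ, 1 ≤ k →
    ∑ m ∈ (Icc 1 M).filter (fun m => Nat.Coprime k m), 1 / (m.totient : ℝ) ≤
      C * ((1 + Real.log k) + (k.totient : ℝ) / k * (1 + Real.log M)) := by
  classical
  have hsum : Summable fun d : ℕ => 9 * (1 / (d : ℝ) ^ ((3 : ℝ) / 2)) :=
    (Real.summable_one_div_nat_rpow.2 (by norm_num)).mul_left 9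
  have hC : ∀ M : ℕ, ∑ d ∈ Icc 1 M, 1 / (d.totient : ℝ) * (1 / (d : ℝ)) ≤
      ∑' d : ℕ, 9 * (1 / (d : ℝ) ^ ((3 : ℝ) / 2)) := by
    intro M
    refine le_trans (Finset.sum_le_sum (fun d hd => ?_))
      (hsum.sum_le_tsum (Icc 1 M) (fun d _ => by positivity))
    rw [Finset.mem_Icc] at hd
    have hd0 : (0 : ℝ) < d := by exact_mod_cast hd.1
    have hd1 : (1 : ℝ) ≤ d := by exact_mod_cast hd.1
    have h1 := BVM.div_totient_le (m := d) (by omega)
    have h2 : Real.log d ≤ 4 * (d : ℝ) ^ ((1 : ℝ) / 4) := by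
      have := Real.log_le_rpow_div hd0.le (show (0 : ℝ) < 1 / 4 by norm_num)
      linarith
    have h3 : (d : ℝ) ^ ((1 : ℝ) / 4) ≤ (d : ℝ) ^ ((1 : ℝ) / 2) :=
      Real.rpow_le_rpow_of_exponent_le hd1 (by norm_num)
    have h4 : (1 : ℝ) ≤ (d : ℝ) ^ ((1 : ℝ) / 2) := Real.one_le_rpow hd1 (by norm_num)
    have h5 : (d : ℝ) / d.totient ≤ 9 * (d : ℝ) ^ ((1 : ℝ) / 2) := by linarith
    have h6 : (d : ℝ) ^ ((3 : ℝ) / 2) * (d : ℝ) ^ ((1 : ℝ) / 2) = (d : ℝ) * d := by
      rw [← Real.rpow_add hd0]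
      norm_num
      rw [sq]
    have hφ : (0 : ℝ) < d.totient := by exact_mod_cast Nat.totient_pos.2 hd.1
    have hr : (0 : ℝ) < (d : ℝ) ^ ((3 : ℝ) / 2) := Real.rpow_pos_of_pos hd0 _
    calc 1 / (d.totient : ℝ) * (1 / (d : ℝ)) = ((d : ℝ) / d.totient) / (d * d) := by
          field_simp
      _ ≤ (9 * (d : ℝ) ^ ((1 : ℝ) / 2)) / (d * d) := by gcongr
      _ = 9 * (1 / (d : ℝ) ^ ((3 : ℝ) / 2)) := by
          rw [← h6]
          have : (0 : ℝ) < (d : ℝ) ^ ((1 : ℝ) / 2) := by linarith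
          field_simp
  set C0 : ℝ := ∑' d : ℕ, 9 * (1 / (d : ℝ) ^ ((3 : ℝ) / 2)) with hC0
  have hC00 : 0 ≤ C0 := tsum_nonneg fun d => by positivity
  refine ⟨C0 + 1, by linarith, fun k M hk => ?_⟩
  set H := (1 + Real.log k) + (k.totient : ℝ) / k * (1 + Real.log M) with hH
  have hlogk : 0 ≤ Real.log (k : ℝ) := Real.log_natCast_nonneg k
  have hlogM : 0 ≤ Real.log (M : ℝ) := Real.log_natCast_nonneg M
  have hH0 : 0 ≤ H := by
    rw [hH]
    positivity
  have hharm := harm_coprime hk M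
  rw [← hH] at hharm
  set T := (Icc 1 M).filter (fun m => Nat.Coprime k m) with hT
  have h1 : ∑ m ∈ T, 1 / (m.totient : ℝ) ≤
      ∑ m ∈ T, ∑ d ∈ Icc 1 M, (if d ∣ m then 1 / (d.totient : ℝ) * (1 / (m : ℝ)) else 0) := by
    refine Finset.sum_le_sum (fun m hm => ?_)
    rw [hT, Finset.mem_filter, Finset.mem_Icc] at hm
    have hm0 : (0 : ℝ) < m := by exact_mod_cast hm.1.1
    have h2 := div_totient_le_sum m (by omega)
    have hφ : (0 : ℝ) < m.totient := by exact_mod_cast Nat.totient_pos.2 hm.1.1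
    have h3 : m.divisors ⊆ (Icc 1 M).filter (fun d => d ∣ m) := by
      intro d hd
      rw [Nat.mem_divisors] at hd
      have h4 := Nat.le_of_dvd (by omega) hd.1
      have h5 := Nat.pos_of_dvd_of_pos hd.1 (by omega : 0 < m)
      rw [Finset.mem_filter, Finset.mem_Icc]
      exact ⟨⟨h5, by omega⟩, hd.1⟩
    rw [← Finset.sum_filter]
    calc 1 / (m.totient : ℝ) = ((m : ℝ) / m.totient) * (1 / m) := by field_simp
      _ ≤ (∑ d ∈ m.divisors, 1 / (d.totient : ℝ)) * (1 / m) := by gcongr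
      _ = ∑ d ∈ m.divisors, 1 / (d.totient : ℝ) * (1 / m) := by rw [Finset.sum_mul]
      _ ≤ _ := Finset.sum_le_sum_of_subset_of_nonneg h3 (fun _ _ _ => by positivity)
  rw [Finset.sum_comm] at h1
  have h2 : ∀ d ∈ Icc 1 M, ∑ m ∈ T,
      (if d ∣ m then 1 / (d.totient : ℝ) * (1 / (m : ℝ)) else 0) ≤
      1 / (d.totient : ℝ) * (1 / (d : ℝ)) * H := by
    intro d hd
    rw [Finset.mem_Icc] at hd
    have hd0 : (0 : ℝ) < d := by exact_mod_cast hd.1
    rw [← Finset.sum_filter]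
    have hsub : T.filter (fun m => d ∣ m) ⊆ T.image (fun t => d * t) := by
      intro m hm
      rw [Finset.mem_filter, hT, Finset.mem_filter, Finset.mem_Icc] at hm
      obtain ⟨⟨⟨h3, h4⟩, h5⟩, t, rfl⟩ := hm
      rw [Finset.mem_image]
      refine ⟨t, ?_, rfl⟩
      rw [hT, Finset.mem_filter, Finset.mem_Icc]
      refine ⟨⟨?_, ?_⟩, Nat.Coprime.coprime_mul_left_right h5⟩
      · exact Nat.pos_of_ne_zero (by rintro rfl; simp at h3)
      · exact (Nat.le_mul_of_pos_left t hd.1).trans h4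
    calc ∑ m ∈ T.filter (fun m => d ∣ m), 1 / (d.totient : ℝ) * (1 / (m : ℝ))
        ≤ ∑ m ∈ T.image (fun t => d * t), 1 / (d.totient : ℝ) * (1 / (m : ℝ)) :=
          Finset.sum_le_sum_of_subset_of_nonneg hsub (fun _ _ _ => by positivity)
      _ = ∑ t ∈ T, 1 / (d.totient : ℝ) * (1 / ((d * t : ℕ) : ℝ)) :=
          Finset.sum_image (fun a _ b _ h => Nat.eq_of_mul_eq_mul_left hd.1 h)
      _ = 1 / (d.totient : ℝ) * (1 / (d : ℝ)) * ∑ t ∈ T, 1 / (t : ℝ) := by
          rw [Finset.mul_sum]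
          refine Finset.sum_congr rfl (fun t _ => ?_)
          push_cast
          rw [one_div_mul_one_div_rev, one_div_mul_one_div_rev, one_div_mul_one_div_rev]
          ring
      _ ≤ _ := by gcongr
  calc ∑ m ∈ T, 1 / (m.totient : ℝ) ≤ _ := h1
    _ ≤ ∑ d ∈ Icc 1 M, 1 / (d.totient : ℝ) * (1 / (d : ℝ)) * H := Finset.sum_le_sum h2
    _ = (∑ d ∈ Icc 1 M, 1 / (d.totient : ℝ) * (1 / (d : ℝ))) * H := by rw [Finset.sum_mul]
    _ ≤ (C0 + 1) * H := by
        apply mul_le_mul_of_nonneg_right _ hH0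
        linarith [hC M]

end Pool.Agent.helper18.CR
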