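import Mathlib

/-!
# MP_5710e5_nt (helper18): the arithmetic part
-/

set_option autoImplicit false

open Finset

namespace Pool.Agent.helper18.CR

theorem totient_dvd_mul {d x : ℕ} (hd : 0 < d) (h : d ∣ x) :
    (d * x).totient = d * x.totient := by
  have h1 := Nat.totient_gcd_mul_totient_mul d x
  rw [Nat.gcd_eq_left h] at h1
  have h2 : 0 < d.totient := Nat.totient_pos.2 hd
  apply Nat.eq_of_mul_eq_mul_left h2
  rw [h1]
  ring

theorem of_prime {n q : ℕ} (hn : 0 < n) (hq : q.Prime) (hqn : ¬ q ∣ n)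
    (hdiv : ∀ r, r.Prime → r ∣ q - 1 → r ^ 2 ∣ n) (hsq : ∀ r, r.Prime → ¬ r ^ 2 ∣ q - 1) :
    ∃ m, m ≠ n ∧ m.totient = n.totient := by
  have hq1 : 0 < q - 1 := by
    have := hq.one_lt
    omega
  have hsf : Squarefree (q - 1) := by
    rw [Nat.squarefree_iff_prime_squarefree]
    intro r hr h
    exact hsq r hr (by rw [sq]; exact h)
  have hprod := Nat.prod_primeFactors_of_squarefree hsf
  have h1 : (q - 1) ^ 2 ∣ n := by
    rw [← hprod, ← Finset.prod_pow]
    refine Finset.prod_dvd_of_isRelPrime ?_ ?_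
    · intro a ha b hb hab
      have h3 := Nat.prime_of_mem_primeFactors (Finset.mem_coe.1 ha)
      have h4 := Nat.prime_of_mem_primeFactors (Finset.mem_coe.1 hb)
      have h5 : Nat.Coprime (a ^ 2) (b ^ 2) :=
        Nat.Coprime.pow _ _ ((Nat.coprime_primes h3 h4).2 hab)
      exact Nat.coprime_iff_isRelPrime.mp h5
    · intro p hp
      exact hdiv p (Nat.prime_of_mem_primeFactors hp) (Nat.dvd_of_mem_primeFactors hp)
  obtain ⟨t, ht⟩ := h1
  set x := (q - 1) * t with hx
  have hn' : n = (q - 1) * x := by rw [ht, hx]; ring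
  have hx0 : 0 < x := by
    rcases Nat.eq_zero_or_pos x with h | h
    · rw [h, mul_zero] at hn'
      omega
    · exact h
  have hcop : Nat.Coprime q x := by
    rw [hq.coprime_iff_not_dvd]
    intro h
    exact hqn (hn' ▸ h.mul_left _)
  refine ⟨q * x, ?_, ?_⟩
  · intro h
    rw [hn'] at h
    have h6 := Nat.eq_of_mul_eq_mul_right hx0 h
    omega
  · rw [Nat.totient_mul hcop, Nat.totient_prime hq, hn', totient_dvd_mul hq1 ⟨t, rfl⟩]

theorem of_not_four {n : ℕ} (hn : 0 < n) (h4 : ¬ 2 ^ 2 ∣ n) :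
    ∃ m, m ≠ n ∧ m.totient = n.totient := by
  by_cases h2 : 2 ∣ n
  · obtain ⟨k, rfl⟩ := h2
    have hk : ¬ 2 ∣ k := by
      rintro ⟨j, rfl⟩
      exact h4 ⟨j, by ring⟩
    refine ⟨k, by omega, ?_⟩
    rw [Nat.totient_mul (Nat.prime_two.coprime_iff_not_dvd.2 hk), Nat.totient_two, one_mul]
  · refine ⟨2 * n, by omega, ?_⟩
    rw [Nat.totient_mul (Nat.prime_two.coprime_iff_not_dvd.2 h2), Nat.totient_two, one_mul]

/-- the same with `q ^ 2 ∤ n` only: a prime `q ∥ n` is replaced by `q - 1` -/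
theorem of_prime_sq {n q : ℕ} (hn : 0 < n) (hq : q.Prime) (hqn : ¬ q ^ 2 ∣ n)
    (hdiv : ∀ r, r.Prime → r ∣ q - 1 → r ^ 2 ∣ n) (hsq : ∀ r, r.Prime → ¬ r ^ 2 ∣ q - 1) :
    ∃ m, m ≠ n ∧ m.totient = n.totient := by
  by_cases hqd : q ∣ n
  swap
  · exact of_prime hn hq hqd hdiv hsq
  have hq1 : 0 < q - 1 := by
    have := hq.one_lt
    omega
  have hsf : Squarefree (q - 1) := by
    rw [Nat.squarefree_iff_prime_squarefree]
    intro r hr h
    exact hsq r hr (by rw [sq]; exact h)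
  have hprod := Nat.prod_primeFactors_of_squarefree hsf
  have h1 : q - 1 ∣ n := by
    rw [← hprod]
    refine Finset.prod_dvd_of_isRelPrime ?_ ?_
    · intro a ha b hb hab
      have h3 := Nat.prime_of_mem_primeFactors (Finset.mem_coe.1 ha)
      have h4 := Nat.prime_of_mem_primeFactors (Finset.mem_coe.1 hb)
      exact Nat.coprime_iff_isRelPrime.mp ((Nat.coprime_primes h3 h4).2 hab)
    · intro p hp
      exact (dvd_pow_self p two_ne_zero).trans
        (hdiv p (Nat.prime_of_mem_primeFactors hp) (Nat.dvd_of_mem_primeFactors hp))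
  obtain ⟨t, ht⟩ := hqd
  have ht0 : 0 < t := by
    rcases Nat.eq_zero_or_pos t with h | h
    · rw [h, mul_zero] at ht
      omega
    · exact h
  have hqt : ¬ q ∣ t := by
    rintro ⟨s, hs⟩
    exact hqn ⟨s, by rw [ht, hs]; ring⟩
  have hcop : Nat.Coprime (q - 1) q := by
    rw [Nat.coprime_comm, hq.coprime_iff_not_dvd]
    intro h
    have := Nat.le_of_dvd hq1 h
    omega
  have h2 : q - 1 ∣ t := by
    rw [ht] at h1
    exact hcop.dvd_of_dvd_mul_left h1
  refine ⟨(q - 1) * t, ?_, ?_⟩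
  · rw [ht]
    intro h
    have := Nat.eq_of_mul_eq_mul_right ht0 h
    omega
  · rw [totient_dvd_mul hq1 h2, ht,
      Nat.totient_mul ((hq.coprime_iff_not_dvd).2 hqt), Nat.totient_prime hq]

end Pool.Agent.helper18.CR
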