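import Pool.Agent.helper18.CR.A
import Pool.Agent.helper18.CR.D
import Pool.Agent.helper18.CR.F

/-!
# MP_5710e5_nt (helper18): a prime `q` in `(P, 2P]` with `q - 1` squarefree and composed of good
primes
-/

set_option autoImplicit false

open Finset Filter

namespace Pool.Agent.helper18.CR

/-- the product of the odd primes `≤ R` -/
def LL (R : ℕ) : ℕ := ∏ p ∈ (Nat.primesLE R).filter (fun p => p ≠ 2), p

theorem LL_odd (R : ℕ) : Odd (LL R) := by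
  unfold LL
  refine Finset.prod_induction _ (fun n => Odd n) (fun a b ha hb => ha.mul hb) odd_one ?_
  intro p hp
  rw [Finset.mem_filter, Nat.mem_primesLE] at hp
  exact hp.1.2.odd_of_ne_two hp.2

theorem dvd_LL {r R : ℕ} (hr : r.Prime) (h2 : r ≠ 2) (hR : r ≤ R) : r ∣ LL R := by
  unfold LL
  exact Finset.dvd_prod_of_mem (fun p => p) (Finset.mem_filter.2 ⟨Nat.mem_primesLE.2 ⟨hR, hr⟩, h2⟩)

theorem coprime_LL {r R : ℕ} (hr : r.Prime) (h : R < r) : Nat.Coprime r (LL R) := by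
  unfold LL
  refine Nat.Coprime.prod_right fun p hp => ?_
  rw [Finset.mem_filter, Nat.mem_primesLE] at hp
  rw [Nat.coprime_primes hr hp.1.2]
  have := hp.1.1
  omega

theorem aa_coprime (R : ℕ) : Nat.Coprime (LL R ^ 2 + 2) (4 * LL R) := by
  have hodd := LL_odd R
  rw [Nat.coprime_mul_iff_right]
  constructor
  · rw [show (4 : ℕ) = 2 ^ 2 by norm_num]
    apply Nat.Coprime.pow_right
    rw [Nat.coprime_two_right]
    exact (hodd.pow).add_even even_two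
  · have h1 : Nat.Coprime 2 (LL R) := (Nat.coprime_two_left).2 hodd
    have h2 : LL R ^ 2 + 2 = 2 + LL R * LL R := by ring
    rw [h2, Nat.coprime_add_mul_left_left]
    exact h1

theorem mod_four {R q : ℕ} (h : q ≡ LL R ^ 2 + 2 [MOD 4 * LL R]) : q % 4 = 3 := by
  have h1 : q ≡ LL R ^ 2 + 2 [MOD 4] := Nat.ModEq.of_mul_right _ h
  obtain ⟨j, hj⟩ := LL_odd R
  have h2 : LL R ^ 2 + 2 = 4 * (j ^ 2 + j) + 3 := by rw [hj]; ring
  have h3 : q % 4 = (LL R ^ 2 + 2) % 4 := h1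
  omega

theorem not_dvd {R q r : ℕ} (hq : 1 ≤ q) (h : q ≡ LL R ^ 2 + 2 [MOD 4 * LL R]) (hr : r.Prime)
    (h2 : r ≠ 2) (hR : r ≤ R) : ¬ r ∣ q - 1 := by
  intro hd
  have h1 : q ≡ LL R ^ 2 + 2 [MOD LL R] := Nat.ModEq.of_mul_left _ h
  have h3 : q ≡ LL R ^ 2 + 2 [MOD r] := h1.of_dvd (dvd_LL hr h2 hR)
  have h4 : LL R ^ 2 + 2 ≡ 2 [MOD r] := by
    have h5 : LL R ^ 2 ≡ 0 [MOD r] :=
      (Nat.modEq_zero_iff_dvd).2 (dvd_pow (dvd_LL hr h2 hR) (by norm_num))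
    simpa using h5.add_right 2
  have h5 : 1 ≡ q [MOD r] := (Nat.modEq_iff_dvd' hq).2 hd
  have h6 : 1 ≡ 2 [MOD r] := h5.trans (h3.trans h4)
  have h7 : r ∣ 2 - 1 := (Nat.modEq_iff_dvd' (by norm_num)).1 h6
  exact hr.one_lt.ne' (Nat.dvd_one.1 h7)

/-- primes `q ≡ a mod K` in `(P, 2P]` with `s ∣ q - 1` -/
def BB (P K a s : ℕ) : Finset ℕ :=
  (Ioc P (2 * P)).filter (fun q => q.Prime ∧ q ≡ a [MOD K] ∧ s ∣ q - 1)

theorem card_BB {C : ℝ} (hC : ∀ x k b : ℕ, 1 ≤ k → 2 * k ≤ x →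
    (((Icc 1 x).filter (fun q => q.Prime ∧ q ≡ b [MOD k])).card : ℝ) ≤
      C * (x / (k.totient * Real.log ((x : ℝ) / k)))) (hC0 : 0 < C) {P K a s : ℕ} (hK : 1 ≤ K)
    (hs : 1 ≤ s) (hcop : Nat.Coprime K s) (hle : K * s ≤ P) {l : ℝ} (hl : 0 < l)
    (hlog : l ≤ Real.log (2 * P / (K * s))) :
    ((BB P K a s).card : ℝ) ≤ C * (2 * P / (K.totient * s.totient * l)) := by
  have hφK : (0 : ℝ) < K.totient := by exact_mod_cast Nat.totient_pos.2 hK
  have hφs : (0 : ℝ) < s.totient := by exact_mod_cast Nat.totient_pos.2 hs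
  rcases (BB P K a s).eq_empty_or_nonempty with h | ⟨q₀, hq₀⟩
  · rw [h, Finset.card_empty, Nat.cast_zero]
    positivity
  · unfold BB at hq₀
    rw [Finset.mem_filter, Finset.mem_Ioc] at hq₀
    have hsub : BB P K a s ⊆ (Icc 1 (2 * P)).filter (fun q => q.Prime ∧ q ≡ q₀ [MOD K * s]) := by
      intro q hq
      unfold BB at hq
      rw [Finset.mem_filter, Finset.mem_Ioc] at hq
      rw [Finset.mem_filter, Finset.mem_Icc]
      refine ⟨⟨hq.2.1.one_le, hq.1.2⟩, hq.2.1, ?_⟩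
      rw [← Nat.modEq_and_modEq_iff_modEq_mul hcop]
      refine ⟨hq.2.2.1.trans hq₀.2.2.1.symm, ?_⟩
      have h1 : 1 ≡ q [MOD s] := (Nat.modEq_iff_dvd' hq.2.1.one_le).2 hq.2.2.2
      have h2 : 1 ≡ q₀ [MOD s] := (Nat.modEq_iff_dvd' hq₀.2.1.one_le).2 hq₀.2.2.2
      exact h1.symm.trans h2
    have h1 := hC (2 * P) (K * s) q₀ (Nat.mul_pos hK hs) (Nat.mul_le_mul_left 2 hle)
    have h2 : ((BB P K a s).card : ℝ) ≤
        (((Icc 1 (2 * P)).filter (fun q => q.Prime ∧ q ≡ q₀ [MOD K * s])).card : ℝ) := by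
      exact_mod_cast Finset.card_le_card hsub
    refine h2.trans (h1.trans ?_)
    rw [Nat.totient_mul hcop]
    push_cast
    gcongr

theorem log_half {P k : ℕ} (hP : 1 ≤ P) (hk : 1 ≤ k) (h : k ^ 2 ≤ P) :
    Real.log P / 2 ≤ Real.log (2 * P / k) := by
  have hP0 : (0 : ℝ) < P := by exact_mod_cast hP
  have hk0 : (0 : ℝ) < k := by exact_mod_cast hk
  have h1 : (k : ℝ) ^ 2 ≤ P := by exact_mod_cast h
  have h2 : (P : ℝ) ≤ (2 * P / k) ^ 2 := by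
    rw [div_pow, le_div_iff₀ (by positivity)]
    nlinarith
  have h3 := Real.log_le_log hP0 h2
  rw [Real.log_pow] at h3
  push_cast at h3
  linarith

theorem sum_sq_le {k N : ℕ} (hk : 1 ≤ k) (s : Finset ℕ) (hs : ∀ r ∈ s, k < r ∧ r ≤ N) :
    ∑ r ∈ s, 1 / ((r : ℝ)) ^ 2 ≤ 1 / (k : ℝ) := by
  rcases Nat.lt_or_ge N k with h | h
  · have : s = ∅ := by
      rw [Finset.eq_empty_iff_forall_notMem]
      intro r hr
      have := hs r hr
      omega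
    rw [this, Finset.sum_empty]
    positivity
  · have h1 : s ⊆ Ioc k N := fun r hr => Finset.mem_Ioc.2 (hs r hr)
    have h2 := sum_Ioc_inv_sq_le_sub (α := ℝ) (show k ≠ 0 by omega) h
    calc ∑ r ∈ s, 1 / ((r : ℝ)) ^ 2 ≤ ∑ r ∈ Ioc k N, 1 / ((r : ℝ)) ^ 2 :=
          Finset.sum_le_sum_of_subset_of_nonneg h1 (fun _ _ _ => by positivity)
      _ = ∑ r ∈ Ioc k N, (((r : ℝ)) ^ 2)⁻¹ := by simp
      _ ≤ (k : ℝ)⁻¹ - (N : ℝ)⁻¹ := h2
      _ ≤ 1 / k := by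
          have : (0 : ℝ) ≤ (N : ℝ)⁻¹ := by positivity
          rw [one_div]
          linarith

end Pool.Agent.helper18.CR
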