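import Pool.Agent.helper18.CR.D2
import Pool.Agent.helper18.CR.G

/-!
# MP_5710e5_nt (helper18): primes `q` of the special class in `(P, 2P]` such that `q - 1` has a
large prime factor
-/

set_option autoImplicit false

open Finset

namespace Pool.Agent.helper18.CR

theorem log_quarter {P y : ℕ} (hP : 16 ≤ P) (h : P < (y + 1) ^ 2) (hy : 1 ≤ y) :
    Real.log P / 4 ≤ Real.log y := by
  have hP' : (16 : ℝ) ≤ P := by exact_mod_cast hP
  have hP0 : (0 : ℝ) < P := by linarith
  have hy' : (1 : ℝ) ≤ y := by exact_mod_cast hy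
  have h1 : (P : ℝ) ≤ (2 * y) ^ 2 := by
    have h2 : (P : ℝ) < ((y : ℝ) + 1) ^ 2 := by exact_mod_cast h
    nlinarith
  have h2 : Real.log P ≤ 2 * (Real.log 2 + Real.log y) := by
    have := Real.log_le_log hP0 h1
    rw [Real.log_pow, Real.log_mul (by norm_num) (by linarith)] at this
    push_cast at this
    linarith
  have h3 : 4 * Real.log 2 ≤ Real.log P := by
    have := Real.log_le_log (by norm_num) hP'
    rw [show (16 : ℝ) = 2 ^ 4 by norm_num, Real.log_pow] at this
    push_cast at this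
    linarith
  linarith

open Classical in
/-- primes `q ≡ L ^ 2 + 2 mod 4 L` in `(P, 2P]` such that `q - 1` has a prime factor `≥ P / M` -/
noncomputable def bigA (R P M : ℕ) : Finset ℕ :=
  (Ioc P (2 * P)).filter (fun q => q.Prime ∧ q ≡ LL R ^ 2 + 2 [MOD 4 * LL R] ∧
    ∃ r : ℕ, r.Prime ∧ P ≤ r * M ∧ r ∣ q - 1)

theorem mem_bigA {R P M q : ℕ} : q ∈ bigA R P M ↔ (P < q ∧ q ≤ 2 * P) ∧ q.Prime ∧
    q ≡ LL R ^ 2 + 2 [MOD 4 * LL R] ∧ ∃ r : ℕ, r.Prime ∧ P ≤ r * M ∧ r ∣ q - 1 := by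
  classical
  rw [bigA, Finset.mem_filter, Finset.mem_Ioc]

theorem large_AP : ∃ C : ℝ, 0 < C ∧ ∀ R P M : ℕ, ∀ η : ℝ, 16 ≤ P → 3 ≤ M → M ^ 2 ≤ P →
    (2 * LL R) ^ 8 ≤ P →
    1 + Real.log ((2 * LL R : ℕ) : ℝ) ≤ ((2 * LL R).totient : ℝ) / ((2 * LL R : ℕ) : ℝ) * η →
    1 + Real.log M ≤ 2 * η →
    ((bigA R P M).card : ℝ) ≤
      C * (η * P / (((4 * LL R).totient : ℝ) * Real.log P ^ 2)) := by
  classical
  obtain ⟨C1, hC1, h1⟩ := pairsAP
  obtain ⟨C2, hC2, h2⟩ := sum_inv_totient_coprime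
  refine ⟨384 * C1 * C2, by positivity, fun R P M η hP hM hMP hkP hη1 hη2 => ?_⟩
  have hP' : (16 : ℝ) ≤ P := by exact_mod_cast hP
  have hP0 : (0 : ℝ) < P := by linarith
  have hΛ : 0 < Real.log P := Real.log_pos (by linarith)
  have hLL : 0 < LL R := (LL_odd R).pos
  set k := 2 * LL R with hk
  have hk2 : 2 ≤ k := by omega
  have hk0 : (0 : ℝ) < k := by exact_mod_cast (show 0 < k by omega)
  have hφk : (0 : ℝ) < k.totient := by exact_mod_cast Nat.totient_pos.2 (show 0 < k by omega)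
  set T : ℕ → Finset ℕ := fun m => (Icc 1 (P / m)).filter
    (fun r => (r.Prime ∧ (2 * m * r + 1).Prime) ∧
      2 * m * r + 1 ≡ LL R ^ 2 + 2 [MOD 4 * LL R]) with hT
  set MM := (Icc 1 M).filter (fun m => Nat.Coprime k m) with hMM
  have hsub : bigA R P M ⊆ MM.biUnion (fun m => (T m).image (fun r => 2 * m * r + 1)) := by
    intro q hq
    rw [mem_bigA] at hq
    obtain ⟨⟨hq1, hq2⟩, hqp, hqa, r, hr, hrM, hrq⟩ := hq
    have hr3 : 3 ≤ r := by
      by_contra hlt
      have h3 : r * M ≤ 2 * M := Nat.mul_le_mul_right _ (by omega)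
      have h4 : 2 * M < M ^ 2 := by nlinarith
      omega
    have hodd : Odd r := hr.odd_of_ne_two (by omega)
    have hqodd : Odd q := hqp.odd_of_ne_two (by omega)
    have hrq' := hrq
    obtain ⟨j, hj⟩ := hrq
    have hev : Even (q - 1) := by
      rw [Nat.even_sub' (by omega)]
      simp [hqodd]
    have hjev : Even j := by
      rw [hj, Nat.even_mul] at hev
      rcases hev with h | h
      · exact absurd h (Nat.not_even_iff_odd.2 hodd)
      · exact h
    obtain ⟨m, hm⟩ := hjev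
    have hq3 : q = 2 * m * r + 1 := by
      have : q - 1 = r * (m + m) := by rw [hj, hm]
      have h5 : r * (m + m) = 2 * m * r := by ring
      omega
    have hm1 : 1 ≤ m := by
      rcases Nat.eq_zero_or_pos m with h | h
      · rw [h] at hq3
        simp at hq3
        omega
      · exact h
    have hmr : m * r ≤ P := by
      have h5 : 2 * m * r = 2 * (m * r) := by ring
      omega
    have hmM : m ≤ M := by
      have h5 : m * r ≤ M * r := by
        calc m * r ≤ P := hmr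
          _ ≤ r * M := hrM
          _ = M * r := mul_comm _ _
      exact Nat.le_of_mul_le_mul_right h5 hr.pos
    have hmd : m ∣ q - 1 := ⟨2 * r, by rw [hq3, Nat.add_sub_cancel]; ring⟩
    have hcop : Nat.Coprime k m := by
      rw [hk, Nat.coprime_mul_iff_left]
      constructor
      · rw [Nat.prime_two.coprime_iff_not_dvd]
        rintro ⟨i, hi⟩
        have h4 := mod_four hqa
        have h5 : q = 4 * (i * r) + 1 := by rw [hq3, hi]; ring
        omega
      · unfold LL
        refine Nat.Coprime.prod_left fun p hp => ?_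
        rw [Finset.mem_filter, Nat.mem_primesLE] at hp
        rw [hp.1.2.coprime_iff_not_dvd]
        intro h5
        exact not_dvd hqp.one_le hqa hp.1.2 hp.2 hp.1.1 (h5.trans hmd)
    rw [Finset.mem_biUnion]
    refine ⟨m, Finset.mem_filter.2 ⟨Finset.mem_Icc.2 ⟨hm1, hmM⟩, hcop⟩, ?_⟩
    rw [Finset.mem_image]
    refine ⟨r, ?_, hq3.symm⟩
    rw [hT]
    simp only
    rw [Finset.mem_filter, Finset.mem_Icc]
    refine ⟨⟨hr.one_le, ?_⟩, ⟨hr, hq3 ▸ hqp⟩, hq3 ▸ hqa⟩
    rw [Nat.le_div_iff_mul_le hm1, mul_comm]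
    exact hmr
  have hcard : ((bigA R P M).card : ℝ) ≤ ∑ m ∈ MM, ((T m).card : ℝ) := by
    have h3 : (bigA R P M).card ≤ ∑ m ∈ MM, (T m).card := by
      refine (Finset.card_le_card hsub).trans (Finset.card_biUnion_le.trans ?_)
      exact Finset.sum_le_sum fun m _ => Finset.card_image_le
    exact_mod_cast h3
  have hlogk : Real.log k ≤ Real.log P / 8 := by
    have h3 : ((k : ℝ)) ^ 8 ≤ P := by exact_mod_cast hkP
    have h4 := Real.log_le_log (by positivity) h3
    rw [Real.log_pow] at h4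
    push_cast at h4
    linarith
  have hterm : ∀ m ∈ MM, ((T m).card : ℝ) ≤
      (64 * C1 * (((k : ℝ) / k.totient) ^ 2 * (P / k)) / Real.log P ^ 2) *
        (1 / (m.totient : ℝ)) := by
    intro m hm
    rw [hMM, Finset.mem_filter, Finset.mem_Icc] at hm
    obtain ⟨⟨hm1, hmM⟩, hcop⟩ := hm
    have hm0 : (0 : ℝ) < m := by exact_mod_cast hm1
    have hφ : (0 : ℝ) < m.totient := by exact_mod_cast Nat.totient_pos.2 hm1
    rcases (T m).eq_empty_or_nonempty with hemp | ⟨r₀, hr₀⟩
    · rw [hemp, Finset.card_empty, Nat.cast_zero]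
      positivity
    have hyM : M ≤ P / m := by
      rw [Nat.le_div_iff_mul_le hm1]
      calc M * m ≤ M * M := Nat.mul_le_mul_left _ hmM
        _ = M ^ 2 := (sq M).symm
        _ ≤ P := hMP
    have hlt : P < (P / m + 1) ^ 2 := by
      have h5 : P < m * (P / m + 1) := Nat.lt_mul_div_succ P hm1
      calc P < m * (P / m + 1) := h5
        _ ≤ (P / m + 1) * (P / m + 1) := Nat.mul_le_mul_right _ (by omega)
        _ = _ := (sq _).symm
    have hq := log_quarter hP hlt (by omega)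
    have hk4 : k ^ 4 ≤ P / m := by
      have h5 : (k ^ 4) ^ 2 < (P / m + 1) ^ 2 := by
        calc (k ^ 4) ^ 2 = k ^ 8 := by ring
          _ ≤ P := hkP
          _ < _ := hlt
      have h6 := lt_of_pow_lt_pow_left₀ 2 (Nat.zero_le _) h5
      omega
    have h2k : 2 * k ≤ P / m := by
      refine le_trans ?_ hk4
      have h5 : 2 * k ≤ k * k := Nat.mul_le_mul_right _ hk2
      have h6 : k * k ≤ k ^ 4 := by
        calc k * k = k ^ 2 := (sq k).symm
          _ ≤ k ^ 4 := Nat.pow_le_pow_right (by omega) (by norm_num)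
      exact h5.trans h6
    have hsubT : T m ⊆ (Icc 1 (P / m)).filter
        (fun r => (r.Prime ∧ (2 * m * r + 1).Prime) ∧ r ≡ r₀ [MOD k]) := by
      intro r hr
      rw [hT] at hr hr₀
      simp only at hr hr₀
      rw [Finset.mem_filter] at hr hr₀ ⊢
      refine ⟨hr.1, hr.2.1, ?_⟩
      have h5 : 2 * m * r + 1 ≡ 2 * m * r₀ + 1 [MOD 4 * LL R] := hr.2.2.trans hr₀.2.2.symm
      have h6 : 2 * m * r ≡ 2 * m * r₀ [MOD 4 * LL R] := Nat.ModEq.add_right_cancel' 1 h5
      have h7 : 2 * (m * r) ≡ 2 * (m * r₀) [MOD 2 * k] := by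
        have e1 : 4 * LL R = 2 * k := by rw [hk]; ring
        rw [e1, mul_assoc, mul_assoc] at h6
        exact h6
      have h8 : m * r ≡ m * r₀ [MOD k] := Nat.ModEq.mul_left_cancel' two_ne_zero h7
      exact Nat.ModEq.cancel_left_of_coprime hcop h8
    have h3 := h1 m (P / m) k r₀ hm1 (by omega) h2k
    have h4 : ((P / m : ℕ) : ℝ) ≤ (P : ℝ) / m := Nat.cast_div_le
    have hy0 : (0 : ℝ) < ((P / m : ℕ) : ℝ) := by exact_mod_cast (show 0 < P / m by omega)
    have hlogyk : Real.log P / 8 ≤ Real.log (((P / m : ℕ) : ℝ) / k) := by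
      rw [Real.log_div hy0.ne' hk0.ne']
      linarith
    calc ((T m).card : ℝ) ≤ _ := by exact_mod_cast Finset.card_le_card hsubT
      _ ≤ C1 * (((k / k.totient) ^ 2 * (m / m.totient)) *
          ((((P / m : ℕ) : ℝ) / k) / Real.log ((((P / m : ℕ) : ℝ)) / k) ^ 2)) := h3
      _ ≤ C1 * ((((k : ℝ) / k.totient) ^ 2 * (m / m.totient)) *
          ((((P : ℝ) / m) / k) / (Real.log P / 8) ^ 2)) := by gcongr
      _ = _ := by
          field_simp
          ring
  have h3 := h2 k M (by omega)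
  have h4 : (1 + Real.log k) + (k.totient : ℝ) / k * (1 + Real.log M) ≤
      3 * ((k.totient : ℝ) / k * η) := by
    have h5 : (k.totient : ℝ) / k * (1 + Real.log M) ≤ (k.totient : ℝ) / k * (2 * η) := by gcongr
    linarith
  have htot : ((4 * LL R).totient : ℝ) = 2 * k.totient := by
    have e1 : 4 * LL R = 2 * k := by rw [hk]; ring
    rw [e1, Nat.totient_mul_of_prime_of_dvd Nat.prime_two (Dvd.intro _ hk.symm)]
    push_cast
    ring
  rw [htot]
  calc ((bigA R P M).card : ℝ) ≤ ∑ m ∈ MM, ((T m).card : ℝ) := hcard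
    _ ≤ ∑ m ∈ MM, (64 * C1 * (((k : ℝ) / k.totient) ^ 2 * (P / k)) / Real.log P ^ 2) *
        (1 / (m.totient : ℝ)) := Finset.sum_le_sum hterm
    _ = (64 * C1 * (((k : ℝ) / k.totient) ^ 2 * (P / k)) / Real.log P ^ 2) *
        ∑ m ∈ MM, (1 / (m.totient : ℝ)) := by rw [Finset.mul_sum]
    _ ≤ (64 * C1 * (((k : ℝ) / k.totient) ^ 2 * (P / k)) / Real.log P ^ 2) *
        (C2 * (3 * ((k.totient : ℝ) / k * η))) := by
        have h5 := h3.trans (mul_le_mul_of_nonneg_left h4 hC2.le)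
        gcongr
    _ = _ := by
        field_simp
        ring

end Pool.Agent.helper18.CR
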