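import Pool.Agent.helper18.CR.E2

/-!
# MP_5710e5_nt (helper18): the counting argument
-/

set_option autoImplicit false

open Finset Filter

namespace Pool.Agent.helper18.CR

/-- the conclusion of the counting argument -/
def GoodPrime (P : ℕ) (E : Finset ℕ) (q : ℕ) : Prop :=
  q.Prime ∧ P < q ∧ q ≤ 2 * P ∧ q % 4 = 3 ∧ (∀ r, r.Prime → r ≠ 2 → ¬ r ^ 2 ∣ q - 1) ∧
    ∀ r ∈ E, r ≠ 2 → ¬ r ∣ q - 1

theorem count {Cb Ca : ℝ} (hCb : 0 < Cb) (hCa : 0 < Ca)
    (hbt : ∀ x k b : ℕ, 1 ≤ k → 2 * k ≤ x →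
      (((Icc 1 x).filter (fun q => q.Prime ∧ q ≡ b [MOD k])).card : ℝ) ≤
        Cb * (x / (k.totient * Real.log ((x : ℝ) / k))))
    {R P k M : ℕ} {δ c φ Λ X : ℝ} (hR1 : 2 ≤ R) (hP16 : 16 ≤ P)
    (hφ : φ = (((4 * LL R).totient : ℕ) : ℝ)) (hΛ : Λ = Real.log P) (hX : X = P / Λ)
    (hK : (4 * LL R) ^ 4 ≤ P) (hk1 : 1 ≤ k) (hk8 : k ^ 8 ≤ P) (hKM : 4 * LL R ≤ M)
    (hδ : 0 < δ) (hMδ : δ * Λ / 2 ≤ Real.log (((M : ℝ) + 1) / ((4 * LL R : ℕ) : ℝ)))
    (hbig : ((bigA R P M).card : ℝ) ≤ Ca * (δ * Λ * P / (φ * Λ ^ 2)))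
    (hS : (P : ℝ) / (2 * φ * Λ) ≤ (((Ioc P (2 * P)).filter
      (fun p => p.Prime ∧ p ≡ LL R ^ 2 + 2 [MOD 4 * LL R])).card : ℝ))
    (E : Finset ℕ) (hE : ∀ r ∈ E, r.Prime)
    (hE1 : ∑ r ∈ E.filter (fun r => R < r ∧ r * M < P), 1 / (r : ℝ) ≤ c) (B : Finset ℕ)
    (htot : 8 * Cb * X / φ * (1 / R) + 2 * P / k + 8 * Cb * X / (φ * δ) * c +
      Ca * δ * X / φ + (B.card : ℝ) < X / (2 * φ)) :
    ∃ q, GoodPrime P E q ∧ q ∉ B := by
  classical
  by_contra hno
  push Not at hno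
  have hRone : 1 ≤ R := by omega
  have hP' : (16 : ℝ) ≤ P := by exact_mod_cast hP16
  have hP0 : (0 : ℝ) < P := by linarith
  have hΛ0 : 0 < Λ := by
    rw [hΛ]
    exact Real.log_pos (by linarith)
  have hLL : 0 < LL R := (LL_odd R).pos
  have hK1 : 1 ≤ 4 * LL R := by omega
  have hφ0 : 0 < φ := by
    rw [hφ]
    exact_mod_cast Nat.totient_pos.2 hK1
  have hX0 : 0 < X := by
    rw [hX]
    positivity
  set a := LL R ^ 2 + 2 with ha
  set K := 4 * LL R with hKdef
  set S := (Ioc P (2 * P)).filter (fun p => p.Prime ∧ p ≡ a [MOD K]) with hSdef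
  set G1 := (Ioc R (2 * P)).filter (fun r => r.Prime ∧ r ^ 8 ≤ P) with hG1
  set G2 := (Ioc 0 (2 * P)).filter (fun r => P < r ^ 8) with hG2
  set E1 := E.filter (fun r => R < r ∧ r * M < P) with hE1def
  have hcopK : ∀ r : ℕ, r.Prime → R < r → Nat.Coprime K r := by
    intro r hr hRr
    rw [hKdef, Nat.coprime_mul_iff_left]
    refine ⟨?_, (coprime_LL hr hRr).symm⟩
    rw [show (4 : ℕ) = 2 ^ 2 by norm_num]
    apply Nat.Coprime.pow_left
    rw [Nat.coprime_primes Nat.prime_two hr]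
    omega
  have hsub : S ⊆ G1.biUnion (fun r => BB P K a (r ^ 2)) ∪
      (G2.biUnion (fun r => (Ioc 0 (2 * P)).filter (fun n => r ^ 2 ∣ n))).image (fun n => n + 1) ∪
      E1.biUnion (fun r => BB P K a r) ∪ bigA R P M ∪ B := by
    intro q hq
    by_cases hqB : q ∈ B
    · exact Finset.mem_union_right _ hqB
    refine Finset.mem_union_left _ ?_
    rw [hSdef, Finset.mem_filter, Finset.mem_Ioc] at hq
    obtain ⟨⟨hq1, hq2⟩, hqp, hqa⟩ := hq
    have hqodd : Odd q := hqp.odd_of_ne_two (by omega)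
    have hng : ¬ GoodPrime P E q := fun hg => hqB (hno q hg)
    unfold GoodPrime at hng
    push Not at hng
    by_cases hsq : ∀ r, r.Prime → r ≠ 2 → ¬ r ^ 2 ∣ q - 1
    · obtain ⟨r, hrE, hr2, hrd⟩ := hng hqp hq1 hq2 (mod_four hqa) hsq
      have hr := hE r hrE
      have hRr : R < r := by
        by_contra hle
        exact not_dvd hqp.one_le hqa hr hr2 (by omega) hrd
      by_cases hM : r * M < P
      · simp only [Finset.mem_union]
        left; right
        rw [Finset.mem_biUnion]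
        refine ⟨r, Finset.mem_filter.2 ⟨hrE, hRr, hM⟩, ?_⟩
        unfold BB
        rw [Finset.mem_filter, Finset.mem_Ioc]
        exact ⟨⟨hq1, hq2⟩, hqp, hqa, hrd⟩
      · simp only [Finset.mem_union]
        right
        rw [mem_bigA]
        exact ⟨⟨hq1, hq2⟩, hqp, hqa, r, hr, by omega, hrd⟩
    · push Not at hsq
      obtain ⟨r, hr, hr2, hrd⟩ := hsq
      have hrd1 : r ∣ q - 1 := (dvd_pow_self r two_ne_zero).trans hrd
      have hRr : R < r := by
        by_contra hle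
        exact not_dvd hqp.one_le hqa hr hr2 (by omega) hrd1
      have hq10 : 0 < q - 1 := by omega
      have hr_le : r ≤ 2 * P := (Nat.le_of_dvd hq10 hrd1).trans (by omega)
      by_cases h8 : r ^ 8 ≤ P
      · simp only [Finset.mem_union]
        left; left; left
        rw [Finset.mem_biUnion]
        refine ⟨r, Finset.mem_filter.2 ⟨Finset.mem_Ioc.2 ⟨hRr, hr_le⟩, hr, h8⟩, ?_⟩
        unfold BB
        rw [Finset.mem_filter, Finset.mem_Ioc]
        exact ⟨⟨hq1, hq2⟩, hqp, hqa, hrd⟩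
      · simp only [Finset.mem_union]
        left; left; right
        rw [Finset.mem_image]
        refine ⟨q - 1, ?_, by omega⟩
        rw [Finset.mem_biUnion]
        refine ⟨r, Finset.mem_filter.2 ⟨Finset.mem_Ioc.2 ⟨hr.pos, hr_le⟩, by omega⟩, ?_⟩
        rw [Finset.mem_filter, Finset.mem_Ioc]
        exact ⟨⟨hq10, by omega⟩, hrd⟩
  have hKr : ∀ {r j : ℕ}, r ^ (4 * j) ≤ P → (K * r ^ j) ^ 2 ≤ P := by
    intro r j h
    have h1 : ((K * r ^ j) ^ 2) ^ 2 ≤ P ^ 2 := by
      calc ((K * r ^ j) ^ 2) ^ 2 = K ^ 4 * r ^ (4 * j) := by ring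
        _ ≤ P * P := Nat.mul_le_mul hK h
        _ = P ^ 2 := (sq P).symm
    exact (Nat.pow_le_pow_iff_left (by norm_num)).1 h1
  -- the five bounds
  have b1 : ((G1.biUnion (fun r => BB P K a (r ^ 2))).card : ℝ) ≤ 8 * Cb * X / φ * (1 / R) := by
    have h1 : ((G1.biUnion (fun r => BB P K a (r ^ 2))).card : ℝ) ≤
        ∑ r ∈ G1, ((BB P K a (r ^ 2)).card : ℝ) := by
      exact_mod_cast Finset.card_biUnion_le
    refine h1.trans ?_
    have h2 : ∀ r ∈ G1, ((BB P K a (r ^ 2)).card : ℝ) ≤ 8 * Cb * X / φ * (1 / (r : ℝ) ^ 2) := by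
      intro r hr
      rw [hG1, Finset.mem_filter, Finset.mem_Ioc] at hr
      obtain ⟨⟨hr1, hr2⟩, hrp, hr8⟩ := hr
      have h3 := hKr (r := r) (j := 2) hr8
      have h4 : K * r ^ 2 ≤ P := (Nat.le_self_pow (by norm_num) _).trans h3
      have h5 := log_half (by omega : 1 ≤ P) (Nat.mul_pos hK1 (pow_pos hrp.pos 2)) h3
      push_cast at h5
      rw [← hΛ] at h5
      have h6 := card_BB hbt hCb (P := P) (a := a) hK1 (Nat.one_le_pow 2 r hrp.pos)
        ((hcopK r hrp hr1).pow_right 2) h4 (l := Λ / 2) (by linarith) (by push_cast; exact h5)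
      refine h6.trans ?_
      have hr2' : (2 : ℝ) ≤ r := by exact_mod_cast hrp.two_le
      have h7 : (r : ℝ) ^ 2 / 2 ≤ ((r ^ 2).totient : ℝ) := by
        rw [Nat.totient_prime_pow hrp (by norm_num)]
        have h8 : ((r - 1 : ℕ) : ℝ) = (r : ℝ) - 1 := by
          rw [Nat.cast_sub hrp.one_le]
          simp
        push_cast
        rw [h8]
        norm_num
        nlinarith
      calc Cb * (2 * P / (K.totient * ((r ^ 2).totient : ℝ) * (Λ / 2)))
          ≤ Cb * (2 * P / (K.totient * ((r : ℝ) ^ 2 / 2) * (Λ / 2))) := by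
            rw [← hφ]
            gcongr
        _ = 8 * Cb * X / φ * (1 / (r : ℝ) ^ 2) := by
            rw [← hφ, hX]
            have : (r : ℝ) ≠ 0 := by linarith
            field_simp
            ring
    refine (Finset.sum_le_sum h2).trans ?_
    rw [← Finset.mul_sum]
    have h3 := sum_sq_le hRone G1 (N := 2 * P) (fun r hr => by
      rw [hG1, Finset.mem_filter, Finset.mem_Ioc] at hr
      exact hr.1)
    gcongr
  have b2 : (((G2.biUnion (fun r => (Ioc 0 (2 * P)).filter (fun n => r ^ 2 ∣ n))).image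
      (fun n => n + 1)).card : ℝ) ≤ 2 * P / k := by
    have h1 : (((G2.biUnion (fun r => (Ioc 0 (2 * P)).filter (fun n => r ^ 2 ∣ n))).image
      (fun n => n + 1)).card : ℝ) ≤
        ∑ r ∈ G2, (((Ioc 0 (2 * P)).filter (fun n => r ^ 2 ∣ n)).card : ℝ) := by
      exact_mod_cast Finset.card_image_le.trans Finset.card_biUnion_le
    refine h1.trans ?_
    have h2 : ∀ r ∈ G2, (((Ioc 0 (2 * P)).filter (fun n => r ^ 2 ∣ n)).card : ℝ) ≤
        2 * P * (1 / (r : ℝ) ^ 2) := by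
      intro r hr
      rw [hG2, Finset.mem_filter, Finset.mem_Ioc] at hr
      rw [Nat.Ioc_filter_dvd_card_eq_div]
      have h3 : ((2 * P / r ^ 2 : ℕ) : ℝ) ≤ ((2 * P : ℕ) : ℝ) / ((r ^ 2 : ℕ) : ℝ) :=
        Nat.cast_div_le
      push_cast at h3
      rw [mul_one_div]
      exact h3
    refine (Finset.sum_le_sum h2).trans ?_
    rw [← Finset.mul_sum]
    have h3 := sum_sq_le hk1 G2 (N := 2 * P) (fun r hr => by
      rw [hG2, Finset.mem_filter, Finset.mem_Ioc] at hr
      refine ⟨?_, hr.1.2⟩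
      have h4 : k ^ 8 < r ^ 8 := lt_of_le_of_lt hk8 hr.2
      exact lt_of_pow_lt_pow_left₀ 8 (Nat.zero_le _) h4)
    calc 2 * (P : ℝ) * ∑ r ∈ G2, 1 / (r : ℝ) ^ 2 ≤ 2 * P * (1 / k) := by gcongr
      _ = 2 * P / k := by ring
  have b3 : ((E1.biUnion (fun r => BB P K a r)).card : ℝ) ≤ 8 * Cb * X / (φ * δ) * c := by
    have h1 : ((E1.biUnion (fun r => BB P K a r)).card : ℝ) ≤
        ∑ r ∈ E1, ((BB P K a r).card : ℝ) := by
      exact_mod_cast Finset.card_biUnion_le
    refine h1.trans ?_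
    have h2 : ∀ r ∈ E1, ((BB P K a r).card : ℝ) ≤ 8 * Cb * X / (φ * δ) * (1 / (r : ℝ)) := by
      intro r hr
      rw [hE1def, Finset.mem_filter] at hr
      obtain ⟨hrE, hr1, hrM⟩ := hr
      have hrp := hE r hrE
      have hr0 : (0 : ℝ) < r := by exact_mod_cast hrp.pos
      have hK0 : (0 : ℝ) < K := by exact_mod_cast hK1
      have h4 : K * r ≤ P := by
        calc K * r ≤ M * r := Nat.mul_le_mul_right _ hKM
          _ = r * M := mul_comm _ _
          _ ≤ P := hrM.le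
      have hlog : δ * Λ / 2 ≤ Real.log (2 * P / ((K : ℝ) * r)) := by
        refine hMδ.trans (Real.log_le_log (by positivity) ?_)
        rw [div_le_div_iff₀ hK0 (by positivity)]
        have h3 : ((r * M : ℕ) : ℝ) < P := by exact_mod_cast hrM
        push_cast at h3
        have h5 : (1 : ℝ) ≤ M := by exact_mod_cast (show 1 ≤ M by omega)
        calc ((M : ℝ) + 1) * (K * r) ≤ (2 * M) * (K * r) := by gcongr; linarith
          _ = 2 * (r * M) * K := by ring
          _ ≤ 2 * P * K := by gcongr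
      have h6 := card_BB hbt hCb (P := P) (a := a) hK1 hrp.one_le
        (hcopK r hrp hr1) h4 (l := δ * Λ / 2) (by positivity) hlog
      refine h6.trans ?_
      have hr2' : (2 : ℝ) ≤ r := by exact_mod_cast hrp.two_le
      have h7 : (r : ℝ) / 2 ≤ (r.totient : ℝ) := by
        rw [Nat.totient_prime hrp]
        have h8 : ((r - 1 : ℕ) : ℝ) = (r : ℝ) - 1 := by
          rw [Nat.cast_sub hrp.one_le]
          simp
        rw [h8]
        linarith
      calc Cb * (2 * P / (K.totient * (r.totient : ℝ) * (δ * Λ / 2)))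
          ≤ Cb * (2 * P / (K.totient * ((r : ℝ) / 2) * (δ * Λ / 2))) := by
            rw [← hφ]
            gcongr
        _ = 8 * Cb * X / (φ * δ) * (1 / (r : ℝ)) := by
            rw [← hφ, hX]
            field_simp
            ring
    refine (Finset.sum_le_sum h2).trans ?_
    rw [← Finset.mul_sum]
    have h3 : ∑ r ∈ E1, 1 / (r : ℝ) ≤ c := hE1
    gcongr
  have b5 : ((bigA R P M).card : ℝ) ≤ Ca * δ * X / φ := by
    refine hbig.trans (le_of_eq ?_)
    rw [hX]
    field_simp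
  have hcard : (S.card : ℝ) ≤ 8 * Cb * X / φ * (1 / R) + 2 * P / k +
      8 * Cb * X / (φ * δ) * c + Ca * δ * X / φ + (B.card : ℝ) := by
    have h1 := (Finset.card_le_card hsub).trans (Finset.card_union_le _ _)
    have h2 := Finset.card_union_le (G1.biUnion (fun r => BB P K a (r ^ 2)) ∪
      (G2.biUnion (fun r => (Ioc 0 (2 * P)).filter (fun n => r ^ 2 ∣ n))).image (fun n => n + 1) ∪
      E1.biUnion (fun r => BB P K a r)) (bigA R P M)
    have h3 := Finset.card_union_le (G1.biUnion (fun r => BB P K a (r ^ 2)) ∪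
      (G2.biUnion (fun r => (Ioc 0 (2 * P)).filter (fun n => r ^ 2 ∣ n))).image (fun n => n + 1))
      (E1.biUnion (fun r => BB P K a r))
    have h4 := Finset.card_union_le (G1.biUnion (fun r => BB P K a (r ^ 2)))
      ((G2.biUnion (fun r => (Ioc 0 (2 * P)).filter (fun n => r ^ 2 ∣ n))).image (fun n => n + 1))
    have h5 : S.card ≤ (G1.biUnion (fun r => BB P K a (r ^ 2))).card +
        ((G2.biUnion (fun r => (Ioc 0 (2 * P)).filter (fun n => r ^ 2 ∣ n))).image
          (fun n => n + 1)).card + (E1.biUnion (fun r => BB P K a r)).card +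
        (bigA R P M).card + B.card := by omega
    have h6 : (S.card : ℝ) ≤ ((G1.biUnion (fun r => BB P K a (r ^ 2))).card : ℝ) +
        (((G2.biUnion (fun r => (Ioc 0 (2 * P)).filter (fun n => r ^ 2 ∣ n))).image
          (fun n => n + 1)).card : ℝ) + ((E1.biUnion (fun r => BB P K a r)).card : ℝ) +
        ((bigA R P M).card : ℝ) + (B.card : ℝ) := by
      exact_mod_cast h5
    linarith
  have h7 : (P : ℝ) / (2 * φ * Λ) = X / (2 * φ) := by
    rw [hX]
    field_simp
  rw [h7] at hS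
  linarith

end Pool.Agent.helper18.CR
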