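import Pool.Agent.helper18.CR.H2

/-!
# MP_5710e5_nt (helper18): the choice of the parameters
-/

set_option autoImplicit false

open Finset Filter

namespace Pool.Agent.helper18.CR

theorem core : ∃ c κ : ℝ, 0 < c ∧ 0 < κ ∧ κ < 1 ∧ ∀ R : ℕ, ∃ ε : ℝ, 0 < ε ∧ ∃ P₀ : ℕ,
    ∀ P : ℕ, P₀ ≤ P → ∀ E : Finset ℕ, (∀ r ∈ E, r.Prime) →
    ∑ r ∈ E.filter (fun r => R < r ∧ (r : ℝ) ≤ (P : ℝ) ^ κ), 1 / (r : ℝ) ≤ c →
    ∀ B : Finset ℕ, (B.card : ℝ) ≤ ε * (P / Real.log P) →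
    ∃ q, GoodPrime P E q ∧ q ∉ B := by
  obtain ⟨Cb, hCb, hbt⟩ := bt
  obtain ⟨Ca, hCa, hla⟩ := large_AP
  obtain ⟨δ, hδ⟩ : ∃ δ : ℝ, δ = min (1 / 2) (1 / (16 * Ca)) := ⟨_, rfl⟩
  have hδ0 : 0 < δ := by rw [hδ]; exact lt_min (by norm_num) (by positivity)
  have hδ2 : δ ≤ 1 / 2 := by rw [hδ]; exact min_le_left _ _
  have hδa : Ca * δ ≤ 1 / 16 := by
    have : δ ≤ 1 / (16 * Ca) := by rw [hδ]; exact min_le_right _ _
    calc Ca * δ ≤ Ca * (1 / (16 * Ca)) := by gcongr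
      _ = 1 / 16 := by field_simp
  refine ⟨δ / (128 * Cb), 1 - δ / 2, by positivity, by linarith, by linarith, fun R₀ => ?_⟩
  obtain ⟨R, hR⟩ : ∃ R : ℕ, R = max R₀ (⌈128 * Cb⌉₊ + 2) := ⟨_, rfl⟩
  have hR0 : R₀ ≤ R := by rw [hR]; exact le_max_left _ _
  have hR2 : 2 ≤ R := by
    have : ⌈128 * Cb⌉₊ + 2 ≤ R := by rw [hR]; exact le_max_right _ _
    omega
  have hRb : 128 * Cb ≤ R := by
    have h1 : ⌈128 * Cb⌉₊ + 2 ≤ R := by rw [hR]; exact le_max_right _ _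
    have h2 : 128 * Cb ≤ (⌈128 * Cb⌉₊ : ℝ) := Nat.le_ceil _
    have h3 : (⌈128 * Cb⌉₊ : ℝ) ≤ R := by exact_mod_cast (show ⌈128 * Cb⌉₊ ≤ R by omega)
    linarith
  have hLL : 0 < LL R := (LL_odd R).pos
  obtain ⟨K, hK⟩ : ∃ K : ℕ, K = 4 * LL R := ⟨_, rfl⟩
  have hK0 : 0 < K := by omega
  have hK0' : (0 : ℝ) < K := by exact_mod_cast hK0
  obtain ⟨φ, hφ⟩ : ∃ φ : ℝ, φ = ((K.totient : ℕ) : ℝ) := ⟨_, rfl⟩
  have hφ0 : 0 < φ := by rw [hφ]; exact_mod_cast Nat.totient_pos.2 hK0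
  obtain ⟨Pa, hPa⟩ := ap_dyadic (q := K) (a := LL R ^ 2 + 2) (by omega) (hK ▸ aa_coprime R)
  have hφk : (0 : ℝ) < ((2 * LL R).totient : ℝ) := by
    exact_mod_cast Nat.totient_pos.2 (show 0 < 2 * LL R by omega)
  have hk0 : (0 : ℝ) < ((2 * LL R : ℕ) : ℝ) := by exact_mod_cast (show 0 < 2 * LL R by omega)
  have tP : Tendsto (fun P : ℕ => (P : ℝ)) atTop atTop := tendsto_natCast_atTop_atTop
  have tlog : Tendsto (fun P : ℕ => Real.log (P : ℝ)) atTop atTop :=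
    Real.tendsto_log_atTop.comp tP
  have tpow : ∀ γ : ℝ, 0 < γ → Tendsto (fun P : ℕ => (P : ℝ) ^ γ) atTop atTop :=
    fun γ hγ => (tendsto_rpow_atTop hγ).comp tP
  have e1 : ∀ᶠ P : ℕ in atTop, Pa ≤ P := eventually_ge_atTop _
  have e2 : ∀ᶠ P : ℕ in atTop, 16 ≤ P := eventually_ge_atTop _
  have e3 : ∀ᶠ P : ℕ in atTop, K ^ 4 ≤ P := eventually_ge_atTop _
  have e4 : ∀ᶠ P : ℕ in atTop, (2 * LL R) ^ 8 ≤ P := eventually_ge_atTop _
  have e5 : ∀ᶠ P : ℕ in atTop, (3 + K : ℝ) ≤ (P : ℝ) ^ δ := (tpow δ hδ0).eventually_ge_atTop _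
  have e6 : ∀ᶠ P : ℕ in atTop, (K : ℝ) ≤ (P : ℝ) ^ (δ / 2) :=
    (tpow (δ / 2) (by positivity)).eventually_ge_atTop _
  have e7 : ∀ᶠ P : ℕ in atTop, (1 + Real.log ((2 * LL R : ℕ) : ℝ)) /
      (((2 * LL R).totient : ℝ) / ((2 * LL R : ℕ) : ℝ) * δ) ≤ Real.log P :=
    tlog.eventually_ge_atTop _
  have e8 : ∀ᶠ P : ℕ in atTop, 1 / δ ≤ Real.log P := tlog.eventually_ge_atTop _
  have e9 : ∀ᶠ P : ℕ in atTop, Real.log P ≤ 1 / (64 * φ) * (P : ℝ) ^ ((1 : ℝ) / 8) := by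
    have h1 := (isLittleO_log_rpow_atTop (show (0 : ℝ) < 1 / 8 by norm_num)).comp_tendsto tP
    have h2 := h1.bound (show (0 : ℝ) < 1 / (64 * φ) by positivity)
    filter_upwards [h2, e2] with P h3 h4
    have h5 : (16 : ℝ) ≤ P := by exact_mod_cast h4
    simp only [Function.comp_apply, Real.norm_eq_abs] at h3
    rw [abs_of_nonneg (Real.log_nonneg (by linarith)),
      abs_of_nonneg (Real.rpow_nonneg (by linarith) _)] at h3
    exact h3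
  have e10 : ∀ᶠ P : ℕ in atTop, (2 : ℝ) ≤ (P : ℝ) ^ ((1 : ℝ) / 8) :=
    (tpow (1 / 8) (by norm_num)).eventually_ge_atTop _
  have e11 : ∀ᶠ P : ℕ in atTop, (2 : ℝ) ≤ (P : ℝ) ^ (δ / 2) :=
    (tpow (δ / 2) (by positivity)).eventually_ge_atTop _
  obtain ⟨P₀, hP₀⟩ := eventually_atTop.1 (e1.and (e2.and (e3.and (e4.and (e5.and (e6.and
    (e7.and (e8.and (e9.and (e10.and e11))))))))))
  refine ⟨1 / (8 * φ), by positivity, P₀, fun P hP E hE hsum B hB => ?_⟩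
  obtain ⟨f1, f2, f3, f4, f5, f6, f7, f8, f9, f10, f11⟩ := hP₀ P hP
  have hP16 : (16 : ℝ) ≤ P := by exact_mod_cast f2
  have hP0 : (0 : ℝ) < P := by linarith
  have hP1 : (1 : ℝ) ≤ P := by linarith
  obtain ⟨Λ, hΛ⟩ : ∃ Λ : ℝ, Λ = Real.log P := ⟨_, rfl⟩
  have hΛ0 : 0 < Λ := by rw [hΛ]; exact Real.log_pos (by linarith)
  rw [← hΛ] at f7 f8 f9
  set M : ℕ := ⌊(P : ℝ) ^ δ⌋₊ with hM
  set k : ℕ := ⌊(P : ℝ) ^ ((1 : ℝ) / 8)⌋₊ with hk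
  have hpd0 : 0 ≤ (P : ℝ) ^ δ := Real.rpow_nonneg hP0.le _
  have hMle : (M : ℝ) ≤ (P : ℝ) ^ δ := Nat.floor_le hpd0
  have hMlt : (P : ℝ) ^ δ < M + 1 := Nat.lt_floor_add_one _
  have hM3 : 3 ≤ M := Nat.le_floor (by push_cast; linarith)
  have hKM : K ≤ M := Nat.le_floor (by linarith)
  have hM0 : (0 : ℝ) < M := by exact_mod_cast (show 0 < M by omega)
  have hMP : M ^ 2 ≤ P := by
    have h1 : (M : ℝ) ^ 2 ≤ P := by
      calc (M : ℝ) ^ 2 ≤ ((P : ℝ) ^ δ) ^ 2 := by gcongr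
        _ = (P : ℝ) ^ (δ * 2) := by rw [Real.rpow_mul hP0.le, Real.rpow_two]
        _ ≤ (P : ℝ) ^ (1 : ℝ) := Real.rpow_le_rpow_of_exponent_le hP1 (by linarith)
        _ = P := Real.rpow_one _
    exact_mod_cast h1
  have hk0' : 0 ≤ (P : ℝ) ^ ((1 : ℝ) / 8) := Real.rpow_nonneg hP0.le _
  have hkle : (k : ℝ) ≤ (P : ℝ) ^ ((1 : ℝ) / 8) := Nat.floor_le hk0'
  have hklt : (P : ℝ) ^ ((1 : ℝ) / 8) < k + 1 := Nat.lt_floor_add_one _
  have hk1 : 1 ≤ k := Nat.le_floor (by push_cast; linarith)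
  have hk8 : k ^ 8 ≤ P := by
    have h1 : (k : ℝ) ^ 8 ≤ P := by
      calc (k : ℝ) ^ 8 ≤ ((P : ℝ) ^ ((1 : ℝ) / 8)) ^ 8 := by gcongr
        _ = (P : ℝ) := by
            rw [← Real.rpow_natCast, ← Real.rpow_mul hP0.le]
            norm_num
    exact_mod_cast h1
  have hkφ : 32 * φ * Λ ≤ k := by
    have h1 : 64 * φ * Λ ≤ (P : ℝ) ^ ((1 : ℝ) / 8) := by
      calc 64 * φ * Λ ≤ 64 * φ * (1 / (64 * φ) * (P : ℝ) ^ ((1 : ℝ) / 8)) := by gcongr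
        _ = _ := by field_simp
    linarith
  have hlogM : Real.log M ≤ δ * Λ := by
    have h1 := Real.log_le_log hM0 hMle
    rw [Real.log_rpow hP0, ← hΛ] at h1
    exact h1
  have hδΛ : 1 ≤ δ * Λ := by
    rw [div_le_iff₀ hδ0] at f8
    linarith
  have hη1 : 1 + Real.log ((2 * LL R : ℕ) : ℝ) ≤
      ((2 * LL R).totient : ℝ) / ((2 * LL R : ℕ) : ℝ) * (δ * Λ) := by
    rw [div_le_iff₀ (by positivity)] at f7
    linarith
  have hbig := hla R P M (δ * Λ) f2 hM3 hMP f4 hη1 (by linarith)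
  rw [← hK, ← hφ, ← hΛ] at hbig
  have hMδ : δ * Λ / 2 ≤ Real.log (((M : ℝ) + 1) / ((4 * LL R : ℕ) : ℝ)) := by
    rw [← hK]
    have h1 : (P : ℝ) ^ (δ / 2) ≤ ((M : ℝ) + 1) / (K : ℝ) := by
      rw [le_div_iff₀ hK0']
      calc (P : ℝ) ^ (δ / 2) * K ≤ (P : ℝ) ^ (δ / 2) * (P : ℝ) ^ (δ / 2) := by gcongr
        _ = (P : ℝ) ^ δ := by
            rw [← Real.rpow_add hP0]
            congr 1
            ring
        _ ≤ M + 1 := hMlt.le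
    have h2 := Real.log_le_log (Real.rpow_pos_of_pos hP0 _) h1
    rw [Real.log_rpow hP0, ← hΛ] at h2
    linarith
  have hS := hPa P f1
  rw [← hφ, ← hΛ, hK] at hS
  obtain ⟨X, hX⟩ : ∃ X : ℝ, X = P / Λ := ⟨_, rfl⟩
  have hX0 : 0 < X := by rw [hX]; positivity
  have hsum' : ∑ r ∈ E.filter (fun r => R < r ∧ r * M < P), 1 / (r : ℝ) ≤ δ / (128 * Cb) := by
    refine le_trans (Finset.sum_le_sum_of_subset_of_nonneg ?_ (fun _ _ _ => by positivity)) hsum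
    intro r hr
    rw [Finset.mem_filter] at hr ⊢
    refine ⟨hr.1, by omega, ?_⟩
    have h1 : ((r * M : ℕ) : ℝ) < P := by exact_mod_cast hr.2.2
    push_cast at h1
    have hM1 : (1 : ℝ) ≤ M := by exact_mod_cast (show 1 ≤ M by omega)
    have h2 : (P : ℝ) ^ δ ≤ 2 * M := by linarith
    have h3 : (0 : ℝ) < (P : ℝ) ^ δ := Real.rpow_pos_of_pos hP0 _
    have h4 : (P : ℝ) ^ (1 - δ / 2) * (P : ℝ) ^ δ = P * (P : ℝ) ^ (δ / 2) := by
      rw [← Real.rpow_add hP0]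
      nth_rewrite 2 [← Real.rpow_one (P : ℝ)]
      rw [← Real.rpow_add hP0]
      congr 1
      ring
    have h5 : (r : ℝ) * (P : ℝ) ^ δ ≤ (P : ℝ) ^ (1 - δ / 2) * (P : ℝ) ^ δ := by
      rw [h4]
      calc (r : ℝ) * (P : ℝ) ^ δ ≤ r * (2 * M) := by gcongr
        _ = (r * M) * 2 := by ring
        _ ≤ P * (P : ℝ) ^ (δ / 2) := by
            apply mul_le_mul h1.le f11 (by norm_num) hP0.le
    exact le_of_mul_le_mul_right h5 h3
  refine count (k := k) (M := M) (δ := δ) (c := δ / (128 * Cb)) (φ := φ) (Λ := Λ) (X := X)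
    hCb hCa hbt hR2 f2 (by rw [hφ, hK]) hΛ hX (hK ▸ f3) hk1 hk8 (hK ▸ hKM) hδ0 hMδ hbig hS E hE
    hsum' B ?_
  have hR0' : (0 : ℝ) < R := by exact_mod_cast (show 0 < R by omega)
  have g1 : 8 * Cb * X / φ * (1 / R) ≤ X / (16 * φ) := by
    have h1 : 8 * Cb / R ≤ 1 / 16 := by
      rw [div_le_iff₀ hR0']
      linarith
    calc 8 * Cb * X / φ * (1 / R) = (8 * Cb / R) * (X / φ) := by ring
      _ ≤ 1 / 16 * (X / φ) := by gcongr
      _ = _ := by field_simp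
  have g2 : 2 * (P : ℝ) / k ≤ X / (16 * φ) := by
    have hkpos : (0 : ℝ) < k := by exact_mod_cast hk1
    calc 2 * (P : ℝ) / k ≤ 2 * P / (32 * φ * Λ) := by gcongr
      _ = _ := by
          rw [hX]
          field_simp
          norm_num
  have g3 : 8 * Cb * X / (φ * δ) * (δ / (128 * Cb)) = X / (16 * φ) := by
    field_simp
    norm_num
  have g4 : Ca * δ * X / φ ≤ X / (16 * φ) := by
    calc Ca * δ * X / φ = (Ca * δ) * (X / φ) := by ring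
      _ ≤ 1 / 16 * (X / φ) := by gcongr
      _ = _ := by field_simp
  have g5 : X / (2 * φ) = 8 * (X / (16 * φ)) := by
    field_simp
    norm_num
  have g6 : 0 < X / (16 * φ) := by positivity
  have g7 : (B.card : ℝ) ≤ 2 * (X / (16 * φ)) := by
    refine hB.trans (le_of_eq ?_)
    rw [← hΛ, ← hX]
    field_simp
    norm_num
  rw [g3, g5]
  linarith

end Pool.Agent.helper18.CR
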