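import Pool.Agent.helper18.CR.I

/-!
# MP_5710e5_nt (helper18): consequences for Carmichael's conjecture
-/

set_option autoImplicit false

open Finset

namespace Pool.Agent.helper18.CR

/-- the three statements with the constants `c` and `κ` -/
theorem main : ∃ c κ : ℝ, 0 < c ∧ 0 < κ ∧ κ < 1 ∧
    ∀ R : ℕ, ∃ ε : ℝ, 0 < ε ∧ ∃ P₀ : ℕ, ∀ n P : ℕ, 0 < n → P₀ ≤ P →
    (((Ioc P (2 * P)).filter (fun q => q.Prime ∧ q ^ 2 ∣ n)).card : ℝ) ≤ ε * (P / Real.log P) →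
    ∑ p ∈ (Icc 1 P).filter (fun p => p.Prime ∧ R < p ∧ (p : ℝ) ≤ (P : ℝ) ^ κ ∧ ¬ p ^ 2 ∣ n),
      (1 : ℝ) / p ≤ c →
    ∃ m, m ≠ n ∧ m.totient = n.totient := by
  classical
  obtain ⟨c, κ, hc, hκ0, hκ, h⟩ := core
  refine ⟨c, κ, hc, hκ0, hκ, fun R => ?_⟩
  obtain ⟨ε, hε, P₀, hP₀⟩ := h R
  refine ⟨ε, hε, P₀, fun n P hn hP hsupp hsum => ?_⟩
  by_cases h4 : 2 ^ 2 ∣ n
  swap
  · exact of_not_four hn h4
  obtain ⟨q, ⟨hqp, hq1, hq2, hqm, hsq, hE⟩, hqB⟩ := hP₀ P hP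
    ((Icc 1 P).filter (fun p => p.Prime ∧ ¬ p ^ 2 ∣ n))
    (fun r hr => (Finset.mem_filter.1 hr).2.1) (by
      rw [Finset.filter_filter]
      refine le_trans (le_of_eq ?_) hsum
      refine Finset.sum_congr ?_ (fun _ _ => rfl)
      ext p
      simp only [Finset.mem_filter]
      tauto)
    ((Ioc P (2 * P)).filter (fun q => q.Prime ∧ q ^ 2 ∣ n)) hsupp
  have hqn : ¬ q ^ 2 ∣ n := fun h5 => hqB (by
    rw [Finset.mem_filter, Finset.mem_Ioc]
    exact ⟨⟨hq1, hq2⟩, hqp, h5⟩)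
  refine of_prime_sq hn hqp hqn ?_ ?_
  · intro r hr hrd
    by_cases hr2 : r = 2
    · rw [hr2]
      exact h4
    · by_contra hnot
      refine hE r ?_ hr2 hrd
      rw [Finset.mem_filter, Finset.mem_Icc]
      refine ⟨⟨hr.one_le, ?_⟩, hr, hnot⟩
      have hrodd : Odd r := hr.odd_of_ne_two hr2
      obtain ⟨j, hj⟩ := hrd
      have hev : Even (r * j) := by
        rw [← hj, Nat.even_iff]
        omega
      rw [Nat.even_mul] at hev
      have hj2 : Even j := by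
        rcases hev with h | h
        · exact absurd h (Nat.not_even_iff_odd.2 hrodd)
        · exact h
      have hj0 : j ≠ 0 := by
        rintro rfl
        rw [mul_zero] at hj
        omega
      have hj3 : 2 ≤ j := by
        obtain ⟨i, hi⟩ := hj2
        omega
      have h5 : r * 2 ≤ r * j := Nat.mul_le_mul_left _ hj3
      omega
  · intro r hr hrd
    by_cases hr2 : r = 2
    · rw [hr2] at hrd
      obtain ⟨j, hj⟩ := hrd
      omega
    · exact hsq r hr hr2 hrd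

theorem main_set {c κ : ℝ} (hc : 0 < c)
    (h : ∀ R : ℕ, ∃ ε : ℝ, 0 < ε ∧ ∃ P₀ : ℕ, ∀ n P : ℕ, 0 < n → P₀ ≤ P →
      (((Ioc P (2 * P)).filter (fun q => q.Prime ∧ q ^ 2 ∣ n)).card : ℝ) ≤ ε * (P / Real.log P) →
      ∑ p ∈ (Icc 1 P).filter (fun p => p.Prime ∧ R < p ∧ (p : ℝ) ≤ (P : ℝ) ^ κ ∧ ¬ p ^ 2 ∣ n),
        (1 : ℝ) / p ≤ c → ∃ m, m ≠ n ∧ m.totient = n.totient)
    (D : Set ℕ) (hD : Summable (D.indicator (fun p : ℕ => (1 : ℝ) / p))) :
    ∃ ε : ℝ, 0 < ε ∧ ∃ P₀ : ℕ, ∀ n P : ℕ, 0 < n → P₀ ≤ P →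
      (((Ioc P (2 * P)).filter (fun q => q.Prime ∧ q ^ 2 ∣ n)).card : ℝ) ≤ ε * (P / Real.log P) →
      (∀ p : ℕ, p.Prime → (p : ℝ) ≤ (P : ℝ) ^ κ → p ∉ D → p ^ 2 ∣ n) →
      ∃ m, m ≠ n ∧ m.totient = n.totient := by
  obtain ⟨s, hs⟩ := hD.vanishing (Metric.ball_mem_nhds (0 : ℝ) hc)
  obtain ⟨ε, hε, P₀, hP₀⟩ := h (s.sup id)
  refine ⟨ε, hε, P₀, fun n P hn hP hsupp hdiv => hP₀ n P hn hP hsupp ?_⟩
  set t := (Icc 1 P).filter
    (fun p => p.Prime ∧ s.sup id < p ∧ (p : ℝ) ≤ (P : ℝ) ^ κ ∧ ¬ p ^ 2 ∣ n) with ht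
  have h1 : Disjoint t s := by
    rw [Finset.disjoint_left]
    intro p hp hps
    rw [ht, Finset.mem_filter] at hp
    have h2 : p ≤ s.sup id := Finset.le_sup (f := id) hps
    have h3 := hp.2.2.1
    omega
  have h2 := hs t h1
  rw [Metric.mem_ball, Real.dist_eq, sub_zero] at h2
  have h3 : ∑ p ∈ t, (1 : ℝ) / p = ∑ p ∈ t, D.indicator (fun p : ℕ => (1 : ℝ) / p) p := by
    refine Finset.sum_congr rfl (fun p hp => ?_)
    rw [ht, Finset.mem_filter, Finset.mem_Icc] at hp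
    rw [Set.indicator_of_mem]
    by_contra hpD
    exact hp.2.2.2.2 (hdiv p hp.2.1 hp.2.2.2.1 hpD)
  rw [h3]
  exact (le_abs_self _).trans h2.le

theorem totient_mul_of_primes {x : ℕ} : ∀ d : ℕ, 0 < d →
    (∀ r : ℕ, r.Prime → r ∣ d → r ∣ x) → (d * x).totient = d * x.totient := by
  intro d
  induction d using Nat.strong_induction_on with
  | _ d ih =>
    intro hd h
    rcases Nat.lt_or_ge 1 d with h1 | h1
    · have hr := Nat.minFac_prime (show d ≠ 1 by omega)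
      obtain ⟨e, he⟩ := Nat.minFac_dvd d
      set r := d.minFac with hrdef
      have he0 : 0 < e := by
        rcases Nat.eq_zero_or_pos e with h2 | h2
        · rw [h2, mul_zero] at he
          omega
        · exact h2
      have helt : e < d := by
        rw [he]
        exact lt_mul_of_one_lt_left he0 hr.one_lt
      have h2 := ih e helt he0 (fun s hs hse => h s hs (by rw [he]; exact hse.mul_left r))
      have h3 : r ∣ e * x := (h r hr (by rw [he]; exact dvd_mul_right r e)).mul_left e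
      rw [he, mul_assoc, Nat.totient_mul_of_prime_of_dvd hr h3, h2, mul_assoc]
    · have : d = 1 := by omega
      rw [this, one_mul, one_mul]

theorem main_initial {κ : ℝ}
    (h : ∃ ε : ℝ, 0 < ε ∧ ∃ P₀ : ℕ, ∀ n P : ℕ, 0 < n → P₀ ≤ P →
      (((Ioc P (2 * P)).filter (fun q => q.Prime ∧ q ^ 2 ∣ n)).card : ℝ) ≤ ε * (P / Real.log P) →
      (∀ p : ℕ, p.Prime → (p : ℝ) ≤ (P : ℝ) ^ κ → p ∉ (∅ : Set ℕ) → p ^ 2 ∣ n) →
      ∃ m, m ≠ n ∧ m.totient = n.totient) :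
    ∃ ε : ℝ, 0 < ε ∧ ∃ P₀ : ℕ, ∀ n P : ℕ, 0 < n → P₀ ≤ P →
      (((Ioc P (2 * P)).filter (fun q => q.Prime ∧ q ^ 2 ∣ n)).card : ℝ) ≤ ε * (P / Real.log P) →
      (∀ p : ℕ, p.Prime → (p : ℝ) ≤ (P : ℝ) ^ κ → p ∣ n) →
      ∃ m, m ≠ n ∧ m.totient = n.totient := by
  obtain ⟨ε, hε, P₀, hP₀⟩ := h
  refine ⟨ε, hε, P₀, fun n P hn hP hsupp h => ?_⟩
  by_cases hall : ∀ p : ℕ, p.Prime → (p : ℝ) ≤ (P : ℝ) ^ κ → p ^ 2 ∣ n
  · exact hP₀ n P hn hP hsupp (fun p hp hpP _ => hall p hp hpP)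
  · push Not at hall
    obtain ⟨p, hp, hpP, hp2⟩ := hall
    obtain ⟨t, ht⟩ := h p hp hpP
    have ht0 : 0 < t := by
      rcases Nat.eq_zero_or_pos t with h2 | h2
      · rw [h2, mul_zero] at ht
        omega
      · exact h2
    have hpt : ¬ p ∣ t := by
      rintro ⟨s, hs⟩
      exact hp2 ⟨s, by rw [ht, hs]; ring⟩
    refine ⟨(p - 1) * t, ?_, ?_⟩
    · rw [ht]
      intro h2
      have h3 := Nat.eq_of_mul_eq_mul_right ht0 h2
      have := hp.pos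
      omega
    · rw [totient_mul_of_primes (p - 1) (by have := hp.one_lt; omega) ?_, ht,
        Nat.totient_mul ((hp.coprime_iff_not_dvd).2 hpt), Nat.totient_prime hp]
      intro r hr hrd
      have h2 : r ≤ p - 1 := Nat.le_of_dvd (by have := hp.one_lt; omega) hrd
      have h5 : (r : ℝ) ≤ (P : ℝ) ^ κ := by
        have h6 : (r : ℝ) ≤ p := by exact_mod_cast (show r ≤ p by omega)
        exact h6.trans hpP
      have h3 : r ∣ n := h r hr h5
      rw [ht] at h3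
      rcases hr.dvd_mul.1 h3 with h4 | h4
      · have := (Nat.prime_dvd_prime_iff_eq hr hp).1 h4
        have h5 := hp.pos
        omega
      · exact h4

end Pool.Agent.helper18.CR
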